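import Pool.Agent.Helper386.PD3.Ana2

/-!
The group ring, its involutions, the homomorphisms to the operator algebra, derivations.
-/

namespace Pool.Agent.Helper386.PD3

set_option linter.unusedSectionVars false

open scoped Classical

noncomputable section

theorem isUnit_sub_one_of_norm {A : Type*} [NormedRing A] [HasSummableGeomSeries A] {x : A}
    (h : ‖x‖ < 1) : IsUnit (x - 1) := by
  have h1 := (isUnit_one_sub_of_norm_lt_one h).neg
  rwa [neg_sub] at h1

theorem isUnit_sub_one_of_norm' {A : Type*} [NormedRing A] [HasSummableGeomSeries A] {x y : A}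
    (hxy : x * y = 1) (hyx : y * x = 1) (h : ‖y‖ < 1) : IsUnit (x - 1) := by
  have h1 : x - 1 = x * (1 - y) := by
    rw [mul_sub, hxy, mul_one]
  rw [h1]
  exact (isUnit_iff_exists.2 ⟨y, hxy, hyx⟩).mul (isUnit_one_sub_of_norm_lt_one h)

variable {G : Type} [Group G]

/-- the group ring -/
abbrev RR (G : Type) [Group G] : Type := MonoidAlgebra ℤ G

/-- group elements in the group ring -/
abbrev gof (g : G) : RR G := MonoidAlgebra.of ℤ G g

theorem gof_mul (g h : G) : gof (g * h) = gof g * gof h := map_mul _ _ _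
theorem gof_one : gof (1 : G) = 1 := map_one _

theorem rr_ind {p : RR G → Prop} (x : RR G) (h1 : ∀ g, p (gof g))
    (h2 : ∀ x y, p x → p y → p (x + y)) (h3 : ∀ x, p x → p (-x)) : p x := by
  induction x using MonoidAlgebra.induction_on with
  | of m => exact h1 m
  | add x y hx hy => exact h2 x y hx hy
  | smul r x hx =>
    have h0 : p 0 := by
      have := h2 _ _ hx (h3 _ hx)
      rwa [add_neg_cancel] at this
    have hn : ∀ n : ℕ, p (n • x) := by
      intro n
      induction n with
      | zero => rwa [zero_smul]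
      | succ n ih =>
        rw [succ_nsmul]
        exact h2 _ _ ih hx
    obtain ⟨n, rfl | rfl⟩ := r.eq_nat_or_neg
    · rw [natCast_zsmul]
      exact hn n
    · rw [neg_smul, natCast_zsmul]
      exact h3 _ (hn n)

/-- homomorphisms from the group ring -/
def liftR {A : Type*} [Ring A] (f : G →* A) : RR G →+* A := (MonoidAlgebra.lift ℤ A G f).toRingHom

theorem liftR_of {A : Type*} [Ring A] (f : G →* A) (g : G) : liftR f (gof g) = f g :=
  MonoidAlgebra.lift_of f g

/-- the augmentation -/
def eps : RR G →+* ℤ := liftR 1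

theorem eps_of (g : G) : eps (gof g) = 1 := liftR_of _ _

/-- additive maps from the group ring -/
def addR {N : Type*} [AddCommGroup N] (f : G → N) : RR G →+ N :=
  (Finsupp.liftAddHom (fun g => zmultiplesHom N (f g))).comp
    (MonoidAlgebra.coeffAddEquiv (R := ℤ) (M := G)).toAddMonoidHom

theorem addR_of {N : Type*} [AddCommGroup N] (f : G → N) (g : G) : addR f (gof g) = f g := by
  change (Finsupp.liftAddHom (fun g => zmultiplesHom N (f g))) (Finsupp.single g 1) = f g
  rw [Finsupp.liftAddHom_apply_single]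
  simp

section dagger

variable (w : G →* ℤˣ)

/-- the twisted involution -/
def dagHom : RR G →+* (RR G)ᵐᵒᵖ :=
  liftR (A := (RR G)ᵐᵒᵖ)
    { toFun := fun g => MulOpposite.op ((((w g : ℤˣ) : ℤ)) • gof g⁻¹)
      map_one' := by simp [MonoidAlgebra.one_def]
      map_mul' := fun g h => by
        rw [← MulOpposite.op_mul, map_mul, mul_inv_rev, gof_mul, Units.val_mul]
        congr 1
        rw [smul_mul_smul_comm, mul_comm] }

/-- the twisted involution -/
def dg (x : RR G) : RR G := (dagHom w x).unop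

theorem dg_of (g : G) : dg w (gof g) = (((w g : ℤˣ) : ℤ)) • gof g⁻¹ := by
  rw [dg, dagHom, liftR_of]
  rfl

theorem dg_add (x y : RR G) : dg w (x + y) = dg w x + dg w y := by
  rw [dg, map_add]
  rfl

theorem dg_neg (x : RR G) : dg w (-x) = -dg w x := by
  rw [dg, map_neg]
  rfl

theorem dg_sub (x y : RR G) : dg w (x - y) = dg w x - dg w y := by
  rw [dg, map_sub]
  rfl

theorem dg_zero : dg w (0 : RR G) = 0 := by
  rw [dg, map_zero]
  rfl

theorem dg_one : dg w (1 : RR G) = 1 := by
  rw [dg, map_one]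
  rfl

theorem dg_mul (x y : RR G) : dg w (x * y) = dg w y * dg w x := by
  rw [dg, map_mul]
  rfl

theorem dg_zsmul (n : ℤ) (x : RR G) : dg w (n • x) = n • dg w x := by
  rw [dg, map_zsmul]
  rfl

theorem dg_sum {ι : Type*} (s : Finset ι) (f : ι → RR G) :
    dg w (∑ i ∈ s, f i) = ∑ i ∈ s, dg w (f i) :=
  map_sum (AddMonoidHom.mk' (dg w) (dg_add w)) f s

theorem dg_dg (x : RR G) : dg w (dg w x) = x := by
  induction x using rr_ind with
  | h1 g =>
    rw [dg_of, dg_zsmul, dg_of, inv_inv, smul_smul, map_inv, Int.units_inv_eq_self,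
      ← Units.val_mul, ← sq, Int.units_sq, Units.val_one, one_smul]
  | h2 x y hx hy => rw [dg_add, dg_add, hx, hy]
  | h3 x hx => rw [dg_neg, dg_neg, hx]

theorem dg_coeff_one (x : RR G) : (dg w x).coeff 1 = x.coeff 1 := by
  induction x using rr_ind with
  | h1 g =>
    rw [dg_of]
    by_cases h : g = 1
    · subst h
      simp
    · have h1 : (gof g⁻¹ : RR G).coeff 1 = 0 := by
        change (Finsupp.single g⁻¹ (1 : ℤ)) 1 = 0
        rw [Finsupp.single_apply, if_neg (fun h' => h (inv_eq_one.1 h'))]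
      have h2 : (gof g : RR G).coeff 1 = 0 := by
        change (Finsupp.single g (1 : ℤ)) 1 = 0
        rw [Finsupp.single_apply, if_neg h]
      rw [h2, MonoidAlgebra.coeff_smul, Finsupp.smul_apply, h1, smul_zero]
  | h2 x y hx hy =>
    rw [dg_add, MonoidAlgebra.coeff_add, MonoidAlgebra.coeff_add, Finsupp.add_apply,
      Finsupp.add_apply, hx, hy]
  | h3 x hx =>
    rw [dg_neg, MonoidAlgebra.coeff_neg, MonoidAlgebra.coeff_neg, Finsupp.neg_apply,
      Finsupp.neg_apply, hx]

variable {n : ℕ}

/-- the twisted transpose -/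
def dgM (M : Matrix (Fin n) (Fin n) (RR G)) : Matrix (Fin n) (Fin n) (RR G) :=
  fun i j => dg w (M j i)

theorem dgM_mul (M N : Matrix (Fin n) (Fin n) (RR G)) : dgM w (M * N) = dgM w N * dgM w M := by
  ext1 i j
  rw [dgM, Matrix.mul_apply, dg_sum, Matrix.mul_apply]
  exact Finset.sum_congr rfl fun k _ => dg_mul w _ _

theorem dgM_dgM (M : Matrix (Fin n) (Fin n) (RR G)) : dgM w (dgM w M) = M := by
  ext1 i j
  exact dg_dg w _

theorem dgM_zero : dgM w (0 : Matrix (Fin n) (Fin n) (RR G)) = 0 := by
  ext1 i j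
  exact dg_zero w

theorem dgM_inj {M N : Matrix (Fin n) (Fin n) (RR G)} (h : dgM w M = dgM w N) : M = N := by
  rw [← dgM_dgM w M, h, dgM_dgM]

end dagger

section iota

/-- the homomorphism to the operator algebra twisted by a character -/
def iota (c : G →* ℝ) : RR G →+* OA G :=
  liftR (A := OA G)
    { toFun := fun g => c g • lamA g
      map_one' := by rw [map_one, one_smul, lamA_one]
      map_mul' := fun g h => by rw [map_mul, lamA_mul, smul_mul_smul_comm] }

theorem iota_of (c : G →* ℝ) (g : G) : iota c (gof g) = c g • lamA g := liftR_of _ _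

theorem τ_iota (c : G →* ℝ) (x : RR G) : τ (iota c x) = (x.coeff 1 : ℤ) := by
  induction x using rr_ind with
  | h1 g =>
    rw [iota_of]
    change (c g • lam2 g (dl 1)) 1 = _
    have h1 : (c g • lam2 g (dl (1 : G))) 1 = c g * dl (1 : G) (g⁻¹ * 1) := rfl
    rw [h1, dl_apply]
    have h2 : (gof g : RR G).coeff 1 = (Finsupp.single g (1 : ℤ)) 1 := rfl
    rw [h2, Finsupp.single_apply]
    by_cases h : g = 1
    · subst h
      simp
    · rw [if_neg h, if_neg, mul_zero, Int.cast_zero]
      rw [mul_one]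
      exact fun h' => h (inv_eq_one.1 h')
  | h2 x y hx hy =>
    rw [map_add, τ_add, hx, hy, MonoidAlgebra.coeff_add, Finsupp.add_apply]
    push_cast
    rfl
  | h3 x hx =>
    rw [map_neg, MonoidAlgebra.coeff_neg, Finsupp.neg_apply]
    have : τ (-(iota c x)) = -τ (iota c x) := rfl
    rw [this, hx]
    push_cast
    rfl

theorem norm_smul_lamA {r : ℝ} (hr : |r| < 1) (g : G) : ‖r • lamA g‖ < 1 := by
  change ‖r • ((lamA g).1 : (L1 G →L[ℝ] L1 G) × (L2 G →L[ℝ] L2 G))‖ < 1
  rw [norm_smul]
  calc ‖r‖ * ‖(lamA g).1‖ ≤ ‖r‖ * 1 := by gcongr; exact norm_lamA_le g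
    _ < 1 := by rw [mul_one]; exact hr

theorem isUnit_smul_sub_one {r : ℝ} (hr : |r| < 1) (g : G) : IsUnit (r • lamA g - 1) :=
  isUnit_sub_one_of_norm (norm_smul_lamA hr g)

theorem isUnit_smul_sub_one' {r : ℝ} (hr : 1 < |r|) (g : G) : IsUnit (r • lamA g - 1) := by
  have hr0 : r ≠ 0 := by
    rintro rfl
    simp at hr
    linarith
  refine isUnit_sub_one_of_norm' (y := r⁻¹ • lamA g⁻¹) ?_ ?_ (norm_smul_lamA ?_ _)
  · rw [smul_mul_smul_comm, mul_inv_cancel₀ hr0, ← lamA_mul, mul_inv_cancel, lamA_one, one_smul]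
  · rw [smul_mul_smul_comm, inv_mul_cancel₀ hr0, ← lamA_mul, inv_mul_cancel, lamA_one, one_smul]
  · rw [abs_inv]
    exact inv_lt_one_of_one_lt₀ hr

end iota

section der

variable {A : Type} [Ring A] (ι : RR G →+* A)

/-- derivations -/
def IsDer {N : Type} [AddCommGroup N] [Module A N] (δ : G → N) : Prop :=
  ∀ g h, δ (g * h) = δ g + ι (gof g) • δ h

/-- every derivation with values in a module over `A` is inner -/
def AllInner : Prop :=
  ∀ (N : Type) [AddCommGroup N] [Module A N] (δ : G → N), IsDer ι δ →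
    ∃ μ : N, ∀ g, δ g = ι (gof g) • μ - μ

variable {ι}

theorem IsDer.one {N : Type} [AddCommGroup N] [Module A N] {δ : G → N} (h : IsDer ι δ) :
    δ 1 = 0 := by
  have := h 1 1
  rw [mul_one, gof_one, map_one, one_smul] at this
  simpa using this

theorem IsDer.ext {N : Type} [AddCommGroup N] [Module A N] {δ : G → N} (h : IsDer ι δ)
    (x y : RR G) : addR δ (x * y) = ι x • addR δ y + eps y • addR δ x := by
  induction x using rr_ind with
  | h1 g =>
    induction y using rr_ind with
    | h1 k =>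
      rw [← gof_mul, addR_of, addR_of, addR_of, eps_of, one_smul, h, add_comm]
    | h2 x y hx hy => rw [mul_add, map_add, hx, hy, map_add, map_add, smul_add, add_smul]; abel
    | h3 x hx => rw [mul_neg, map_neg, hx, map_neg, map_neg, smul_neg, neg_smul]; abel
  | h2 a b ha hb => rw [add_mul, map_add, ha, hb, map_add, map_add, smul_add, add_smul]; abel
  | h3 a ha => rw [neg_mul, map_neg, ha, map_neg, map_neg, smul_neg, neg_smul]; abel

/-- The derivation lemma. -/
theorem allInner_of {d : ℕ} (h : Fin d → G) (t : G)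
    (hgen : Subgroup.closure (Set.range h ∪ {t}) = ⊤) (W : Matrix (Fin d) (Fin d) (RR G))
    (hW : ∀ i, gof (t * h i * t⁻¹) - 1 = ∑ j, W i j * (gof (h j) - 1))
    (ht : IsUnit (ι (gof t) - 1)) (T S : Matrix (Fin d) (Fin d) A)
    (hT : T = Matrix.diagonal (fun _ => ι (gof t)) - W.map ι) (hS : S * T = 1) :
    AllInner ι := by
  intro N _ _ δ hδ
  obtain ⟨u, hu⟩ := ht
  let μ : N := (↑u⁻¹ : A) • δ t
  have hμ : ι (gof t) • μ - μ = δ t := by
    have h1 : (u : A) • μ = δ t := by
      change (u : A) • (↑u⁻¹ : A) • δ t = δ t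
      rw [smul_smul, Units.mul_inv, one_smul]
    rw [hu, sub_smul, one_smul] at h1
    exact h1
  refine ⟨μ, ?_⟩
  let δ' : G → N := fun g => δ g - (ι (gof g) • μ - μ)
  have hδ' : IsDer ι δ' := by
    intro g k
    change δ (g * k) - (ι (gof (g * k)) • μ - μ) = (δ g - (ι (gof g) • μ - μ)) +
      ι (gof g) • (δ k - (ι (gof k) • μ - μ))
    rw [hδ, gof_mul, map_mul, mul_smul, smul_sub, smul_sub]
    abel
  have ht' : δ' t = 0 := by
    change δ t - (ι (gof t) • μ - μ) = 0
    rw [hμ, sub_self]
  have hti : δ' t⁻¹ = 0 := by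
    have := hδ' t⁻¹ t
    rw [inv_mul_cancel, hδ'.one, ht', smul_zero, add_zero] at this
    exact this.symm
  have hrel : ∀ i, ι (gof t) • δ' (h i) = ∑ j, ι (W i j) • δ' (h j) := by
    intro i
    have h1 : δ' (t * h i * t⁻¹) = ι (gof t) • δ' (h i) := by
      rw [hδ', hti, smul_zero, add_zero, hδ', ht', zero_add]
    have h2 := congrArg (addR δ') (hW i)
    rw [map_sub, addR_of, ← gof_one, addR_of, hδ'.one, sub_zero, h1, map_sum] at h2
    rw [h2]
    refine Finset.sum_congr rfl fun j _ => ?_
    rw [hδ'.ext, map_sub, map_sub, addR_of, eps_of, eps_of, sub_self, zero_smul,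
      add_zero, addR_of, hδ'.one, sub_zero]
  have hzero : ∀ i, δ' (h i) = 0 := by
    intro i
    have h1 : ∀ k, ∑ j, T k j • δ' (h j) = 0 := by
      intro k
      simp only [hT, Matrix.sub_apply, sub_smul, Finset.sum_sub_distrib, Matrix.map_apply]
      rw [← hrel k, Finset.sum_eq_single k, Matrix.diagonal_apply_eq, sub_self]
      · intro j _ hj
        rw [Matrix.diagonal_apply_ne _ (Ne.symm hj), zero_smul]
      · intro h
        exact absurd (Finset.mem_univ k) h
    have h2 : ∑ k, S i k • ∑ j, T k j • δ' (h j) = δ' (h i) := by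
      simp only [Finset.smul_sum, smul_smul]
      rw [Finset.sum_comm]
      simp only [← Finset.sum_smul]
      have h3 : ∀ j, ∑ k, S i k * T k j = (1 : Matrix (Fin d) (Fin d) A) i j := by
        intro j
        rw [← hS, Matrix.mul_apply]
      simp only [h3]
      rw [Finset.sum_eq_single i]
      · rw [Matrix.one_apply_eq, one_smul]
      · intro j _ hj
        rw [Matrix.one_apply_ne (Ne.symm hj), zero_smul]
      · intro h
        exact absurd (Finset.mem_univ i) h
    rw [← h2]
    simp only [h1, smul_zero, Finset.sum_const_zero]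
  have hall : ∀ g, δ' g = 0 := by
    intro g
    have hg : g ∈ Subgroup.closure (Set.range h ∪ {t}) := by
      rw [hgen]
      trivial
    induction hg using Subgroup.closure_induction with
    | mem x hx =>
      rcases hx with ⟨i, rfl⟩ | hx
      · exact hzero i
      · rw [Set.mem_singleton_iff.1 hx]
        exact ht'
    | one => exact hδ'.one
    | mul x y _ _ hx hy => rw [hδ', hx, hy, smul_zero, add_zero]
    | inv x _ hx =>
      have := hδ' x⁻¹ x
      rw [inv_mul_cancel, hδ'.one, hx, smul_zero, add_zero] at this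
      exact this.symm
  intro g
  exact sub_eq_zero.1 (hall g)

end der

end

end Pool.Agent.Helper386.PD3
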