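import Mathlib

/-!
Operators on `ℓ¹(G)` and `ℓ²(G)` commuting with right translations.
-/

namespace Pool.Agent.Helper386.PD3

open scoped ENNReal

set_option linter.unusedSectionVars false

noncomputable section

section reindex

variable {X : Type} (p : ℝ≥0∞)

/-- reindexing a function in `ℓ^p` along a permutation -/
def reidxFun (hp : 0 < p.toReal) (e : X ≃ X) (x : lp (fun _ : X => ℝ) p) :
    lp (fun _ : X => ℝ) p :=
  ⟨fun g => x (e g), by
    have h := (memℓp_gen_iff hp).1 x.2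
    exact (memℓp_gen_iff hp).2 ((e.summable_iff (f := fun i => ‖x i‖ ^ p.toReal)).2 h)⟩

variable [Fact (1 ≤ p)]

/-- reindexing as a linear isometry -/
def reidx (hp : 0 < p.toReal) (e : X ≃ X) :
    lp (fun _ : X => ℝ) p →ₗᵢ[ℝ] lp (fun _ : X => ℝ) p where
  toFun := reidxFun p hp e
  map_add' x y := by ext g; rfl
  map_smul' c x := by ext g; rfl
  norm_map' x := by
    rw [lp.norm_eq_tsum_rpow hp, lp.norm_eq_tsum_rpow hp]
    congr 1
    exact e.tsum_eq (fun i => ‖x i‖ ^ p.toReal)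

theorem reidx_apply (hp : 0 < p.toReal) (e : X ≃ X) (x : lp (fun _ : X => ℝ) p) (g : X) :
    reidx p hp e x g = x (e g) := rfl

end reindex

theorem one_pos' : 0 < (1 : ℝ≥0∞).toReal := by simp
theorem two_pos' : 0 < (2 : ℝ≥0∞).toReal := by simp

variable (G : Type) [Group G]

/-- `ℓ¹(G)` -/
abbrev L1 : Type := lp (fun _ : G => ℝ) 1
/-- `ℓ²(G)` -/
abbrev L2 : Type := lp (fun _ : G => ℝ) 2

variable {G}

/-- left translation on `ℓ¹` -/
def lam1 (g : G) : L1 G →L[ℝ] L1 G := (reidx 1 one_pos' (Equiv.mulLeft g⁻¹)).toContinuousLinearMap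
/-- left translation on `ℓ²` -/
def lam2 (g : G) : L2 G →L[ℝ] L2 G := (reidx 2 two_pos' (Equiv.mulLeft g⁻¹)).toContinuousLinearMap
/-- right translation on `ℓ²` -/
def rho (g : G) : L2 G →L[ℝ] L2 G := (reidx 2 two_pos' (Equiv.mulRight g)).toContinuousLinearMap

theorem lam1_apply (g : G) (x : L1 G) (k : G) : lam1 g x k = x (g⁻¹ * k) := rfl
theorem lam2_apply (g : G) (x : L2 G) (k : G) : lam2 g x k = x (g⁻¹ * k) := rfl
theorem rho_apply (g : G) (x : L2 G) (k : G) : rho g x k = x (k * g) := rfl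

theorem norm_lam1_le (g : G) : ‖lam1 g‖ ≤ 1 := LinearIsometry.norm_toContinuousLinearMap_le _
theorem norm_lam2_le (g : G) : ‖lam2 g‖ ≤ 1 := LinearIsometry.norm_toContinuousLinearMap_le _

theorem rho_rho_inv (g : G) (x : L2 G) : rho g (rho g⁻¹ x) = x := by
  ext k; simp [rho_apply]
theorem rho_inv_rho (g : G) (x : L2 G) : rho g⁻¹ (rho g x) = x := by
  ext k; simp [rho_apply]

theorem inner_rho (g : G) (x y : L2 G) : inner ℝ (rho g x) (rho g y) = inner ℝ x y :=
  (reidx 2 two_pos' (Equiv.mulRight g)).inner_map_map x y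

/-- the inclusion `ℓ¹ → ℓ²` -/
def inc : L1 G →ₗ[ℝ] L2 G := lp.linearMapOfLE ℝ _ (by norm_num)

theorem inc_apply (x : L1 G) (k : G) : inc x k = x k := rfl

theorem inc_inj {x : L1 G} (h : inc x = 0) : x = 0 := by
  ext k
  rw [← inc_apply, h]
  rfl

variable (G) in
/-- compatible pairs of operators on `ℓ¹(G)` and `ℓ²(G)`, the second one commuting with
right translations -/
def AA : Subalgebra ℝ ((L1 G →L[ℝ] L1 G) × (L2 G →L[ℝ] L2 G)) where
  carrier := {T | (∀ x : L1 G, inc (T.1 x) = T.2 (inc x)) ∧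
    ∀ (k : G) (x : L2 G), T.2 (rho k x) = rho k (T.2 x)}
  mul_mem' {S T} hS hT := by
    refine ⟨fun x => ?_, fun k x => ?_⟩
    · change inc (S.1 (T.1 x)) = S.2 (T.2 (inc x))
      rw [hS.1, hT.1]
    · change S.2 (T.2 (rho k x)) = rho k (S.2 (T.2 x))
      rw [hT.2, hS.2]
  add_mem' {S T} hS hT := by
    refine ⟨fun x => ?_, fun k x => ?_⟩
    · change inc (S.1 x + T.1 x) = S.2 (inc x) + T.2 (inc x)
      rw [map_add, hS.1, hT.1]
    · change S.2 (rho k x) + T.2 (rho k x) = rho k (S.2 x + T.2 x)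
      rw [hS.2, hT.2, map_add]
  algebraMap_mem' r := by
    refine ⟨fun x => ?_, fun k x => ?_⟩
    · change inc (r • x) = r • inc x
      rw [map_smul]
    · change r • rho k x = rho k (r • x)
      rw [map_smul]

theorem isClosed_AA : IsClosed ((AA G : Subalgebra ℝ _) :
    Set ((L1 G →L[ℝ] L1 G) × (L2 G →L[ℝ] L2 G))) := by
  have h : ((AA G : Subalgebra ℝ _) : Set ((L1 G →L[ℝ] L1 G) × (L2 G →L[ℝ] L2 G))) =
      (⋂ (x : L1 G) (k : G), {T | (T.1 x) k = (T.2 (inc x)) k}) ∩
      ⋂ (k : G) (x : L2 G), {T | T.2 (rho k x) = rho k (T.2 x)} := by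
    ext T
    simp only [Set.mem_inter_iff, Set.mem_iInter]
    constructor
    · rintro ⟨h1, h2⟩
      exact ⟨fun x k => by change T.1 x k = _; rw [← inc_apply, h1], h2⟩
    · rintro ⟨h1, h2⟩
      exact ⟨fun x => by ext k; exact h1 x k, h2⟩
  rw [h]
  refine IsClosed.inter ?_ ?_
  · refine isClosed_iInter fun x => isClosed_iInter fun k => isClosed_eq ?_ ?_
    · exact (lp.evalCLM ℝ (fun _ : G => ℝ) 1 k).continuous.comp
        ((ContinuousLinearMap.apply ℝ (L1 G) x).continuous.comp continuous_fst)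
    · exact (lp.evalCLM ℝ (fun _ : G => ℝ) 2 k).continuous.comp
        ((ContinuousLinearMap.apply ℝ (L2 G) (inc x)).continuous.comp continuous_snd)
  · refine isClosed_iInter fun k => isClosed_iInter fun x => isClosed_eq ?_ ?_
    · exact (ContinuousLinearMap.apply ℝ (L2 G) (rho k x)).continuous.comp continuous_snd
    · exact (rho k).continuous.comp
        ((ContinuousLinearMap.apply ℝ (L2 G) x).continuous.comp continuous_snd)

variable (G) in
/-- the algebra of compatible pairs of operators -/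
def OA : Type := AA G

instance : NormedRing (OA G) := inferInstanceAs (NormedRing (AA G))
instance : NormedAlgebra ℝ (OA G) := inferInstanceAs (NormedAlgebra ℝ (AA G))
instance : CompleteSpace (OA G) :=
  (isClosed_AA.completeSpace_coe : CompleteSpace (AA G))

/-- translation as an element of the algebra -/
def lamA (g : G) : OA G := ⟨(lam1 g, lam2 g), ⟨fun x => rfl, fun k x => by
  ext j
  change x (g⁻¹ * j * k) = x (g⁻¹ * (j * k))
  rw [mul_assoc]⟩⟩

theorem norm_lamA_le (g : G) : ‖lamA g‖ ≤ 1 := by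
  change ‖((lam1 g, lam2 g) : (L1 G →L[ℝ] L1 G) × (L2 G →L[ℝ] L2 G))‖ ≤ 1
  rw [Prod.norm_def]
  exact max_le (norm_lam1_le g) (norm_lam2_le g)

theorem lamA_one : lamA (1 : G) = 1 := by
  apply Subtype.ext
  apply Prod.ext
  · ext x k
    change x (1⁻¹ * k) = x k
    simp
  · ext x k
    change x (1⁻¹ * k) = x k
    simp

theorem lamA_mul (g h : G) : lamA (g * h) = lamA g * lamA h := by
  apply Subtype.ext
  apply Prod.ext
  · ext x k
    change x ((g * h)⁻¹ * k) = x (h⁻¹ * (g⁻¹ * k))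
    rw [mul_inv_rev, mul_assoc]
  · ext x k
    change x ((g * h)⁻¹ * k) = x (h⁻¹ * (g⁻¹ * k))
    rw [mul_inv_rev, mul_assoc]

end

end Pool.Agent.Helper386.PD3
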