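import Pool.Agent.Helper386.PD3.Ana1

/-!
The trace of idempotent matrices over the operators commuting with right translations.
-/

namespace Pool.Agent.Helper386.PD3

open scoped ENNReal Classical

set_option linter.unusedSectionVars false

noncomputable section

variable {G : Type} [Group G]

/-- the basis vectors of `ℓ²` -/
def dl (g : G) : L2 G := lp.single 2 g 1

theorem dl_apply (g k : G) : dl g k = if k = g then 1 else 0 := by
  change (Pi.single g (1 : ℝ) : G → ℝ) k = _
  rw [Pi.single_apply]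

theorem rho_dl (g : G) : rho g⁻¹ (dl (1 : G)) = dl g := by
  ext k
  rw [rho_apply, dl_apply, dl_apply]
  by_cases h : k = g
  · simp [h]
  · have : ¬ (k * g⁻¹ = 1) := by
      intro h'
      exact h (mul_inv_eq_one.1 h')
    simp [h, this]

theorem hasSum_dl (x : L2 G) : HasSum (fun g => x g • dl g) x := by
  have h := lp.hasSum_single (E := fun _ : G => ℝ) (p := 2) (by norm_num) x
  have e : (fun g => x g • dl g) = fun g => lp.single (E := fun _ : G => ℝ) 2 g (x g) := by
    funext g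
    rw [dl, ← lp.single_smul, smul_eq_mul, mul_one]
  rw [e]
  exact h

theorem inner_dl (x : L2 G) (g : G) : inner ℝ x (dl g) = x g := by
  rw [dl, lp.inner_single_right]
  simp

variable (G) in
/-- the Hilbert space `ℓ²(G)^n` -/
abbrev VV (n : ℕ) : Type := PiLp 2 (fun _ : Fin n => L2 G)

variable {n : ℕ}

/-- the operator with a given matrix -/
def opV (M : Matrix (Fin n) (Fin n) (L2 G →L[ℝ] L2 G)) : VV G n →L[ℝ] VV G n :=
  ((PiLp.continuousLinearEquiv 2 ℝ (fun _ : Fin n => L2 G)).symm :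
    (Fin n → L2 G) →L[ℝ] VV G n) ∘L
   (ContinuousLinearMap.pi fun i => ∑ j, (M i j) ∘L ContinuousLinearMap.proj j) ∘L
   ((PiLp.continuousLinearEquiv 2 ℝ (fun _ : Fin n => L2 G)) : VV G n →L[ℝ] (Fin n → L2 G))

theorem opV_apply (M : Matrix (Fin n) (Fin n) (L2 G →L[ℝ] L2 G)) (x : VV G n) (i : Fin n) :
    opV M x i = ∑ j, M i j (x j) := by
  change (∑ j, (M i j) ∘L ContinuousLinearMap.proj j : (Fin n → L2 G) →L[ℝ] L2 G) x.ofLp = _
  rw [sum_apply]
  rfl

/-- the coordinate inclusions -/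
def inj (j : Fin n) : L2 G →L[ℝ] VV G n :=
  ((PiLp.continuousLinearEquiv 2 ℝ (fun _ : Fin n => L2 G)).symm :
    (Fin n → L2 G) →L[ℝ] VV G n) ∘L (ContinuousLinearMap.single ℝ (fun _ : Fin n => L2 G) j)

theorem inj_apply (j i : Fin n) (y : L2 G) : inj j y i = if i = j then y else 0 := by
  change (Pi.single j y : Fin n → L2 G) i = _
  rw [Pi.single_apply]

theorem sum_inj (x : VV G n) : ∑ j, inj j (x j) = x := by
  ext1 i
  rw [WithLp.ofLp_sum, Finset.sum_apply]
  have : ∀ j, (inj j (x.ofLp j)).ofLp i = if i = j then x.ofLp j else 0 := fun j => inj_apply j i _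
  simp only [this]
  simp

/-- right translations on `ℓ²(G)^n` -/
def RV (k : G) : VV G n →L[ℝ] VV G n := opV (Matrix.diagonal fun _ => rho k)

theorem RV_apply (k : G) (x : VV G n) (i : Fin n) : RV k x i = rho k (x i) := by
  rw [RV, opV_apply, Finset.sum_eq_single i]
  · rw [Matrix.diagonal_apply_eq]
  · intro j _ hj
    rw [Matrix.diagonal_apply_ne _ (Ne.symm hj)]
    rfl
  · intro h
    exact absurd (Finset.mem_univ i) h

theorem vv_ext {x y : VV G n} (h : ∀ i, x i = y i) : x = y := by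
  ext1 i
  exact h i

theorem RV_inj (k : G) (j : Fin n) (y : L2 G) : RV k (inj j y) = inj j (rho k y) := by
  apply vv_ext
  intro i
  rw [RV_apply, inj_apply, inj_apply]
  split_ifs
  · rfl
  · exact map_zero _

theorem inner_RV (k : G) (x y : VV G n) : inner ℝ (RV k x) (RV k y) = inner ℝ x y := by
  rw [PiLp.inner_apply, PiLp.inner_apply]
  refine Finset.sum_congr rfl fun i _ => ?_
  have h1 : (RV k x).ofLp i = rho k (x.ofLp i) := RV_apply k x i
  have h2 : (RV k y).ofLp i = rho k (y.ofLp i) := RV_apply k y i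
  rw [h1, h2, inner_rho]

theorem RV_RV_inv (k : G) (x : VV G n) : RV k (RV k⁻¹ x) = x := by
  apply vv_ext
  intro i
  rw [RV_apply, RV_apply, rho_rho_inv]

/-- the trace -/
def trV (T : VV G n →L[ℝ] VV G n) : ℝ := ∑ i, (T (inj i (dl 1))) i 1

/-- coordinate evaluation -/
def evV (i : Fin n) (g : G) : VV G n →L[ℝ] ℝ :=
  (lp.evalCLM ℝ (fun _ : G => ℝ) 2 g) ∘L (ContinuousLinearMap.proj i) ∘L
   ((PiLp.continuousLinearEquiv 2 ℝ (fun _ : Fin n => L2 G)) : VV G n →L[ℝ] (Fin n → L2 G))

theorem evV_apply (i : Fin n) (g : G) (x : VV G n) : evV i g x = x i g := rfl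

/-- commuting with right translations -/
def Equi (T : VV G n →L[ℝ] VV G n) : Prop := ∀ k x, T (RV k x) = RV k (T x)

theorem equi_eval {S : VV G n →L[ℝ] VV G n} (hS : Equi S) (i j : Fin n) (g : G) :
    S (inj j (dl g)) i 1 = S (inj j (dl 1)) i g⁻¹ := by
  rw [← rho_dl, ← RV_inj, hS, RV_apply, rho_apply, one_mul]

theorem expand {S : VV G n →L[ℝ] VV G n} (hS : Equi S) (y : VV G n) (i : Fin n) :
    S y i 1 = ∑ j, ∑' g, y j g * S (inj j (dl 1)) i g⁻¹ := by
  have h1 : ∀ j, HasSum (fun g => y j g * S (inj j (dl 1)) i g⁻¹) (S (inj j (y j)) i 1) := by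
    intro j
    have h2 := (hasSum_dl (y j)).mapL (evV i 1 ∘L S ∘L inj j)
    have h3 : (fun g => (evV i 1 ∘L S ∘L inj j) (y j g • dl g)) =
        fun g => y j g * S (inj j (dl 1)) i g⁻¹ := by
      funext g
      rw [map_smul, smul_eq_mul]
      congr 1
      exact equi_eval hS i j g
    rw [h3] at h2
    exact h2
  conv_lhs => rw [← sum_inj y]
  rw [map_sum]
  change evV i 1 (∑ j, S (inj j (y j))) = _
  rw [map_sum]
  exact Finset.sum_congr rfl fun j _ => (h1 j).tsum_eq.symm

theorem trV_comm {S T : VV G n →L[ℝ] VV G n} (hS : Equi S) (hT : Equi T) :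
    trV (S ∘L T) = trV (T ∘L S) := by
  have h1 : trV (S ∘L T) = ∑ i, ∑ j, ∑' g, T (inj i (dl 1)) j g * S (inj j (dl 1)) i g⁻¹ :=
    Finset.sum_congr rfl fun i _ => expand hS _ i
  have h2 : trV (T ∘L S) = ∑ i, ∑ j, ∑' g, S (inj i (dl 1)) j g * T (inj j (dl 1)) i g⁻¹ :=
    Finset.sum_congr rfl fun i _ => expand hT _ i
  rw [h1, h2, Finset.sum_comm]
  refine Finset.sum_congr rfl fun i _ => Finset.sum_congr rfl fun j _ => ?_
  rw [← (Equiv.inv G).tsum_eq]
  refine tsum_congr fun g => ?_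
  change T (inj j (dl 1)) i g⁻¹ * S (inj i (dl 1)) j g⁻¹⁻¹ = _
  rw [inv_inv, mul_comm]

/-- Kaplansky's theorem -/
theorem kaplansky {Q : VV G n →L[ℝ] VV G n} (hQ : Equi Q) (hi : Q ∘L Q = Q) :
    0 ≤ trV Q ∧ (trV Q = 0 → Q = 0) := by
  have hQQ : ∀ x, Q (Q x) = Q x := fun x => congrArg (fun T => T x) hi
  let W : Submodule ℝ (VV G n) := LinearMap.eqLocus (Q : VV G n →ₗ[ℝ] VV G n) LinearMap.id
  have hW : ∀ x, x ∈ W ↔ Q x = x := fun x => Iff.rfl
  have hWc : IsClosed (W : Set (VV G n)) := isClosed_eq Q.continuous continuous_id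
  have : CompleteSpace W := hWc.completeSpace_coe
  let P := W.starProjection
  have hPQ : P ∘L Q = Q := by
    ext1 x
    exact Submodule.starProjection_eq_self_iff.2 (hQQ x)
  have hQP : Q ∘L P = P := by
    ext1 x
    exact (hW _).1 (W.starProjection_apply_mem x)
  have hRW : ∀ (k : G) (w : VV G n), w ∈ W → RV k w ∈ W := by
    intro k w hw
    rw [hW] at hw ⊢
    rw [hQ, hw]
  have hP : Equi P := by
    intro k x
    refine Submodule.eq_starProjection_of_mem_of_inner_eq_zero
      (hRW k _ (W.starProjection_apply_mem x)) ?_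
    intro w hw
    rw [← RV_RV_inv k w, ← map_sub, inner_RV]
    exact W.starProjection_inner_eq_zero x _ (hRW k⁻¹ w hw)
  have htr : trV Q = trV P := by
    rw [← hPQ, trV_comm hP hQ, hQP]
  have hval : ∀ i, (P (inj i (dl (1 : G)))) i 1 =
      inner ℝ (P (inj i (dl (1 : G)))) (P (inj i (dl 1))) := by
    intro i
    rw [W.inner_starProjection_left_eq_right]
    have : P (P (inj i (dl (1 : G)))) = P (inj i (dl 1)) :=
      Submodule.starProjection_eq_self_iff.2 (W.starProjection_apply_mem _)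
    rw [this, real_inner_comm, PiLp.inner_apply, Finset.sum_eq_single i]
    · have : (inj i (dl (1 : G)) : VV G n).ofLp i = dl 1 := by
        have := inj_apply i i (dl (1 : G))
        simpa using this
      rw [this, inner_dl]
    · intro j _ hj
      have : (inj i (dl (1 : G)) : VV G n).ofLp j = 0 := by
        have := inj_apply i j (dl (1 : G))
        simpa [hj] using this
      rw [this, inner_zero_right]
    · intro h
      exact absurd (Finset.mem_univ i) h
  have htr2 : trV Q = ∑ i, inner ℝ (P (inj i (dl (1 : G)))) (P (inj i (dl 1))) := by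
    rw [htr]
    exact Finset.sum_congr rfl fun i _ => hval i
  refine ⟨?_, ?_⟩
  · rw [htr2]
    exact Finset.sum_nonneg fun i _ => real_inner_self_nonneg
  · intro h0
    rw [htr2, Finset.sum_eq_zero_iff_of_nonneg (fun i _ => real_inner_self_nonneg)] at h0
    have h1 : ∀ i, P (inj i (dl (1 : G))) = 0 := fun i =>
      inner_self_eq_zero.1 (h0 i (Finset.mem_univ i))
    have h2 : ∀ i (g : G), P (inj i (dl g)) = 0 := by
      intro i g
      rw [← rho_dl, ← RV_inj, hP, h1, map_zero]
    have h3 : ∀ i (y : L2 G), P (inj i y) = 0 := by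
      intro i y
      have h4 := (hasSum_dl y).mapL (P ∘L inj i)
      have h5 : (fun g => (P ∘L inj i) (y g • dl g)) = fun g => 0 := by
        funext g
        rw [map_smul]
        change _ • P (inj i (dl g)) = 0
        rw [h2, smul_zero]
      rw [h5] at h4
      exact h4.unique hasSum_zero
    have h6 : P = 0 := by
      ext1 x
      rw [← sum_inj x, map_sum]
      simp only [h3, Finset.sum_const_zero]
      rfl
    rw [← hPQ, h6, ContinuousLinearMap.zero_comp]

theorem opV_mul (M N : Matrix (Fin n) (Fin n) (L2 G →L[ℝ] L2 G)) :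
    opV (M * N) = opV M ∘L opV N := by
  ext1 x
  apply vv_ext
  intro i
  change opV (M * N) x i = opV M (opV N x) i
  rw [opV_apply, opV_apply]
  have h : ∀ k, (opV N x) k = ∑ j, N k j (x j) := opV_apply N x
  simp only [h, Matrix.mul_apply, sum_apply, map_sum]
  rw [Finset.sum_comm]
  rfl

/-- the trace on the algebra -/
def τ (T : OA G) : ℝ := T.1.2 (dl 1) 1

theorem τ_add (S T : OA G) : τ (S + T) = τ S + τ T := rfl
theorem τ_sub (S T : OA G) : τ (S - T) = τ S - τ T := rfl
theorem τ_zero : τ (0 : OA G) = 0 := rfl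

theorem τ_sum {ι : Type*} (s : Finset ι) (f : ι → OA G) : τ (∑ i ∈ s, f i) = ∑ i ∈ s, τ (f i) :=
  map_sum (AddMonoidHom.mk' (τ : OA G → ℝ) τ_add) f s

theorem τ_comm (S T : OA G) : τ (S * T) = τ (T * S) := by
  have key : ∀ S T : OA G, τ (S * T) = ∑' g, T.1.2 (dl 1) g * S.1.2 (dl 1) g⁻¹ := by
    intro S T
    have h2 := (hasSum_dl (T.1.2 (dl 1))).mapL ((lp.evalCLM ℝ (fun _ : G => ℝ) 2 1) ∘L S.1.2)
    have h3 : (fun g => ((lp.evalCLM ℝ (fun _ : G => ℝ) 2 1) ∘L S.1.2)
        (T.1.2 (dl 1) g • dl g)) = fun g => T.1.2 (dl 1) g * S.1.2 (dl 1) g⁻¹ := by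
      funext g
      rw [map_smul, smul_eq_mul]
      congr 1
      change S.1.2 (dl g) 1 = _
      rw [← rho_dl, S.2.2, rho_apply, one_mul]
    rw [h3] at h2
    exact h2.tsum_eq.symm
  rw [key, key, ← (Equiv.inv G).tsum_eq]
  refine tsum_congr fun g => ?_
  change T.1.2 (dl 1) g⁻¹ * S.1.2 (dl 1) g⁻¹⁻¹ = _
  rw [inv_inv, mul_comm]

/-- the trace on matrices -/
def Tr (M : Matrix (Fin n) (Fin n) (OA G)) : ℝ := ∑ i, τ (M i i)

theorem Tr_add (M N : Matrix (Fin n) (Fin n) (OA G)) : Tr (M + N) = Tr M + Tr N := by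
  rw [Tr, Tr, Tr, ← Finset.sum_add_distrib]
  rfl

theorem Tr_sub (M N : Matrix (Fin n) (Fin n) (OA G)) : Tr (M - N) = Tr M - Tr N := by
  rw [Tr, Tr, Tr, ← Finset.sum_sub_distrib]
  rfl

theorem Tr_comm (M N : Matrix (Fin n) (Fin n) (OA G)) : Tr (M * N) = Tr (N * M) := by
  simp only [Tr, Matrix.mul_apply, τ_sum]
  rw [Finset.sum_comm]
  exact Finset.sum_congr rfl fun i _ => Finset.sum_congr rfl fun j _ => τ_comm _ _

/-- the second component of a matrix -/
def sndM (M : Matrix (Fin n) (Fin n) (OA G)) : Matrix (Fin n) (Fin n) (L2 G →L[ℝ] L2 G) :=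
  fun i j => (M i j).1.2

theorem sndM_mul (M N : Matrix (Fin n) (Fin n) (OA G)) : sndM (M * N) = sndM M * sndM N := by
  ext1 i j
  have h : ∀ (s : Finset (Fin n)), (∑ k ∈ s, M i k * N k j).1.2 = ∑ k ∈ s, (M i k).1.2 * (N k j).1.2 := by
    intro s
    induction s using Finset.induction_on with
    | empty => rfl
    | insert a s ha ih =>
      rw [Finset.sum_insert ha, Finset.sum_insert ha, ← ih]
      rfl
  exact h Finset.univ

theorem trV_opV (M : Matrix (Fin n) (Fin n) (OA G)) : trV (opV (sndM M)) = Tr M := by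
  refine Finset.sum_congr rfl fun i _ => ?_
  rw [opV_apply, Finset.sum_eq_single i]
  · rw [inj_apply, if_pos rfl]
    rfl
  · intro j _ hj
    rw [inj_apply, if_neg hj, map_zero]
  · intro h
    exact absurd (Finset.mem_univ i) h

theorem equi_opV (M : Matrix (Fin n) (Fin n) (OA G)) : Equi (opV (sndM M)) := by
  intro k x
  apply vv_ext
  intro i
  rw [opV_apply, RV_apply, opV_apply, map_sum]
  refine Finset.sum_congr rfl fun j _ => ?_
  rw [RV_apply]
  exact (M i j).2.2 k _

/-- Idempotent matrices have nonnegative trace, and vanish if the trace is zero. -/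
theorem idem_trace {M : Matrix (Fin n) (Fin n) (OA G)} (h : M * M = M) :
    0 ≤ Tr M ∧ (Tr M = 0 → M = 0) := by
  have h1 := kaplansky (equi_opV M) (by rw [← opV_mul, ← sndM_mul, h])
  rw [trV_opV] at h1
  refine ⟨h1.1, fun h0 => ?_⟩
  have h2 := h1.2 h0
  have h3 : ∀ i j, (M i j).1.2 = 0 := by
    intro i j
    ext1 y
    have h4 : opV (sndM M) (inj j y) i = 0 := by
      rw [h2]
      rfl
    rw [opV_apply, Finset.sum_eq_single j] at h4
    · rw [inj_apply, if_pos rfl] at h4
      exact h4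
    · intro k _ hk
      rw [inj_apply, if_neg hk, map_zero]
    · intro h
      exact absurd (Finset.mem_univ j) h
  ext1 i j
  apply Subtype.ext
  apply Prod.ext
  · ext1 x
    apply inc_inj
    rw [(M i j).2.1 x, h3]
    rfl
  · exact h3 i j

end

end Pool.Agent.Helper386.PD3
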