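import Pool.Agent.Helper386.PD3.Fox

/-!
Contractions over the operator algebra of the low degree part of a resolution.
-/

namespace Pool.Agent.Helper386.PD3

set_option linter.unusedSectionVars false

open scoped Classical Matrix

noncomputable section

variable {G : Type} [Group G] {n : ℕ}

/-- square matrices over the group ring -/
abbrev MR (G : Type) [Group G] (n : ℕ) : Type := Matrix (Fin n) (Fin n) (RR G)

/-- The low degree part of a resolution of the trivial module `ℤ` by finitely generated projective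
modules, given as images of idempotent matrices (acting on row vectors from the right). -/
structure Low (e0 e1 e2 d0 d1 : MR G n) : Prop where
  ee0 : e0 * e0 = e0
  ee1 : e1 * e1 = e1
  ee2 : e2 * e2 = e2
  e1d0 : e1 * d0 = d0
  d0e0 : d0 * e0 = d0
  e2d1 : e2 * d1 = d1
  d1e1 : d1 * e1 = d1
  dd : d1 * d0 = 0
  aug : ∃ ε : (Fin n → RR G) →+ ℤ, (∀ (g : G) (v : Fin n → RR G), ε (gof g • v) = ε v) ∧
    (∃ u, u ᵥ* e0 = u ∧ ε u = 1) ∧ (∀ v, ε (v ᵥ* d0) = 0) ∧
    (∀ u, u ᵥ* e0 = u → ε u = 0 → ∃ v, v ᵥ* d0 = u)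
  ex1 : ∀ v, v ᵥ* e1 = v → v ᵥ* d0 = 0 → ∃ u, u ᵥ* d1 = v

variable {A : Type} [Ring A] (ι : RR G →+* A)

/-- entrywise image of a vector -/
def vmap (v : Fin n → RR G) : Fin n → A := fun i => ι (v i)

theorem vmap_add (v v' : Fin n → RR G) : vmap ι (v + v') = vmap ι v + vmap ι v' := by
  funext i
  exact map_add ι _ _

theorem vmap_smul (r : RR G) (v : Fin n → RR G) : vmap ι (r • v) = ι r • vmap ι v := by
  funext i
  exact map_mul ι _ _

theorem vmap_vecMul (v : Fin n → RR G) (M : MR G n) :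
    vmap ι (v ᵥ* M) = vmap ι v ᵥ* M.map ι := by
  funext i
  exact RingHom.map_vecMul ι M v i

theorem map_mulM (M N : MR G n) : (M * N).map ι = M.map ι * N.map ι := by
  exact Matrix.map_mul

theorem eps_eq {ε : (Fin n → RR G) →+ ℤ}
    (h : ∀ (g : G) (v : Fin n → RR G), ε (gof g • v) = ε v) (r : RR G)
    (v : Fin n → RR G) : ε (r • v) = eps r * ε v := by
  induction r using rr_ind with
  | h1 g => rw [h, eps_of, one_mul]
  | h2 x y hx hy => rw [add_smul, map_add, hx, hy, map_add, add_mul]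
  | h3 x hx => rw [neg_smul, map_neg, hx, map_neg, neg_mul]

theorem exists_contr {e0 e1 e2 d0 d1 : MR G n} (hL : Low e0 e1 e2 d0 d1) (hin : AllInner ι)
    (t : G) (ht : IsUnit (ι (gof t) - 1)) :
    ∃ X0 X1 : Matrix (Fin n) (Fin n) A, X0 * d0.map ι = e0.map ι ∧
      e1.map ι = d0.map ι * X0 + X1 * d1.map ι ∧ X1 * e2.map ι = X1 := by
  obtain ⟨ε, hε, ⟨u0, hu0, hεu0⟩, hεd, hεex⟩ := hL.aug
  let U : Submodule A (Fin n → A) :=
    { carrier := {v | ∃ a b : Fin n → A, v = a ᵥ* d1.map ι + b ᵥ* (1 - e1.map ι)}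
      add_mem' := by
        rintro _ _ ⟨a, b, rfl⟩ ⟨a', b', rfl⟩
        refine ⟨a + a', b + b', ?_⟩
        rw [Matrix.add_vecMul, Matrix.add_vecMul]
        abel
      zero_mem' := ⟨0, 0, by simp⟩
      smul_mem' := by
        rintro c _ ⟨a, b, rfl⟩
        refine ⟨c • a, c • b, ?_⟩
        rw [Matrix.smul_vecMul, Matrix.smul_vecMul, smul_add] }
  let mk : (Fin n → A) →ₗ[A] ((Fin n → A) ⧸ U) := U.mkQ
  have hmk : ∀ v, mk v = 0 ↔ v ∈ U := fun v => Submodule.Quotient.mk_eq_zero U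
  -- the function on the range of `d0`
  let pre : (Fin n → RR G) → (Fin n → RR G) := fun x =>
    if h : ∃ v, v ᵥ* d0 = x then h.choose else 0
  have hpre : ∀ v, pre (v ᵥ* d0) ᵥ* d0 = v ᵥ* d0 := by
    intro v
    have h : ∃ v', v' ᵥ* d0 = v ᵥ* d0 := ⟨v, rfl⟩
    change (if h : ∃ v', v' ᵥ* d0 = v ᵥ* d0 then h.choose else 0) ᵥ* d0 = v ᵥ* d0
    rw [dif_pos h]
    exact h.choose_spec
  let β : (Fin n → RR G) → ((Fin n → A) ⧸ U) := fun x => mk (vmap ι (pre x ᵥ* e1))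
  have hβ : ∀ v, β (v ᵥ* d0) = mk (vmap ι (v ᵥ* e1)) := by
    intro v
    rw [← sub_eq_zero]
    change mk (vmap ι (pre (v ᵥ* d0) ᵥ* e1)) - mk (vmap ι (v ᵥ* e1)) = 0
    rw [← map_sub, hmk]
    have h1 : ((pre (v ᵥ* d0) - v) ᵥ* e1) ᵥ* d0 = 0 := by
      rw [Matrix.vecMul_vecMul, hL.e1d0, Matrix.sub_vecMul, hpre, sub_self]
    obtain ⟨u, hu⟩ := hL.ex1 ((pre (v ᵥ* d0) - v) ᵥ* e1)
      (by rw [Matrix.vecMul_vecMul, hL.ee1]) h1
    refine ⟨vmap ι u, 0, ?_⟩
    rw [Matrix.zero_vecMul, add_zero, ← vmap_vecMul, hu]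
    have h2 : pre (v ᵥ* d0) ᵥ* e1 = (pre (v ᵥ* d0) - v) ᵥ* e1 + v ᵥ* e1 := by
      rw [Matrix.sub_vecMul, sub_add_cancel]
    rw [h2, vmap_add, add_sub_cancel_right]
  have hβadd : ∀ x y, (∃ v, v ᵥ* d0 = x) → (∃ v, v ᵥ* d0 = y) → β (x + y) = β x + β y := by
    rintro _ _ ⟨v, rfl⟩ ⟨v', rfl⟩
    rw [← Matrix.add_vecMul, hβ, hβ, hβ, Matrix.add_vecMul, vmap_add, map_add]
  have hβsmul : ∀ (r : RR G) x, (∃ v, v ᵥ* d0 = x) → β (r • x) = ι r • β x := by
    rintro r _ ⟨v, rfl⟩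
    rw [← Matrix.smul_vecMul, hβ, hβ, Matrix.smul_vecMul, vmap_smul, map_smul]
  have hβneg : ∀ x, (∃ v, v ᵥ* d0 = x) → β (-x) = -β x := by
    intro x hx
    have := hβsmul (-1) x hx
    rw [neg_smul, one_smul, map_neg, map_one, neg_smul, one_smul] at this
    exact this
  have hmem : ∀ g : G, ∃ v, v ᵥ* d0 = gof g • u0 - u0 := by
    intro g
    refine hεex _ ?_ ?_
    · rw [Matrix.sub_vecMul, Matrix.smul_vecMul, hu0]
    · rw [map_sub, hε, sub_self]
  obtain ⟨μ, hμ⟩ := hin _ (fun g : G => β (gof g • u0 - u0)) (by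
    intro g h
    change β (gof (g * h) • u0 - u0) = β (gof g • u0 - u0) + ι (gof g) • β (gof h • u0 - u0)
    have e : gof (g * h) • u0 - u0 = (gof g • u0 - u0) + gof g • (gof h • u0 - u0) := by
      rw [gof_mul, mul_smul, smul_sub]
      abel
    rw [e, hβadd _ _ (hmem g), hβsmul _ _ (hmem h)]
    obtain ⟨v, hv⟩ := hmem h
    exact ⟨gof g • v, by rw [Matrix.smul_vecMul, hv]⟩)
  -- the extension to the image of `e0`
  let F : (Fin n → RR G) → ((Fin n → A) ⧸ U) := fun x => β (x - ε x • u0) + ε x • μ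
  have hFmem : ∀ x, x ᵥ* e0 = x → ∃ v, v ᵥ* d0 = x - ε x • u0 := by
    intro x hx
    refine hεex _ ?_ ?_
    · rw [Matrix.sub_vecMul, hx]
      have : (ε x • u0) ᵥ* e0 = ε x • (u0 ᵥ* e0) := Matrix.smul_vecMul _ _ _
      rw [this, hu0]
    · rw [map_sub, map_zsmul, hεu0, smul_eq_mul, mul_one, sub_self]
  have hFadd : ∀ x y, x ᵥ* e0 = x → y ᵥ* e0 = y → F (x + y) = F x + F y := by
    intro x y hx hy
    change β (x + y - ε (x + y) • u0) + ε (x + y) • μ = (β (x - ε x • u0) + ε x • μ) +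
      (β (y - ε y • u0) + ε y • μ)
    have e : x + y - ε (x + y) • u0 = (x - ε x • u0) + (y - ε y • u0) := by
      rw [map_add, add_smul]
      abel
    rw [e, hβadd _ _ (hFmem x hx) (hFmem y hy), map_add, add_smul]
    abel
  have hFneg : ∀ x, x ᵥ* e0 = x → F (-x) = -F x := by
    intro x hx
    change β (-x - ε (-x) • u0) + ε (-x) • μ = -(β (x - ε x • u0) + ε x • μ)
    have e : -x - ε (-x) • u0 = -(x - ε x • u0) := by
      rw [map_neg, neg_smul]
      abel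
    rw [e, hβneg _ (hFmem x hx), map_neg, neg_smul]
    abel
  have hFg : ∀ (g : G) x, x ᵥ* e0 = x → F (gof g • x) = ι (gof g) • F x := by
    intro g x hx
    change β (gof g • x - ε (gof g • x) • u0) + ε (gof g • x) • μ =
      ι (gof g) • (β (x - ε x • u0) + ε x • μ)
    have e : gof g • x - ε (gof g • x) • u0 = gof g • (x - ε x • u0) +
        (((ε x : ℤ) : RR G)) • (gof g • u0 - u0) := by
      rw [hε, smul_sub, smul_sub, Int.cast_smul_eq_zsmul, Int.cast_smul_eq_zsmul, smul_comm]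
      abel
    obtain ⟨v, hv⟩ := hFmem x hx
    obtain ⟨v', hv'⟩ := hmem g
    rw [e, hβadd _ _ ⟨gof g • v, by rw [Matrix.smul_vecMul, hv]⟩
      ⟨(((ε x : ℤ) : RR G)) • v', by rw [Matrix.smul_vecMul, hv']⟩, hβsmul _ _ ⟨v, hv⟩,
      hβsmul _ _ ⟨v', hv'⟩, hμ, hε, smul_add, map_intCast, Int.cast_smul_eq_zsmul, smul_sub,
      smul_comm (ε x)]
    abel
  have hFsmul : ∀ r x, x ᵥ* e0 = x → F (r • x) = ι r • F x := by
    intro r x hx
    induction r using rr_ind with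
    | h1 g => exact hFg g x hx
    | h2 a b ha hb =>
      rw [add_smul, hFadd _ _ (by rw [Matrix.smul_vecMul, hx]) (by rw [Matrix.smul_vecMul, hx]),
        ha, hb, map_add, add_smul]
    | h3 a ha =>
      rw [neg_smul, hFneg _ (by rw [Matrix.smul_vecMul, hx]), ha, map_neg, neg_smul]
  have hFd : ∀ v, F (v ᵥ* d0) = mk (vmap ι (v ᵥ* e1)) := by
    intro v
    change β (v ᵥ* d0 - ε (v ᵥ* d0) • u0) + ε (v ᵥ* d0) • μ = _
    rw [hεd, zero_smul, zero_smul, sub_zero, add_zero, hβ]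
  -- rows of `e0`
  have hrow : ∀ i, (e0 i) ᵥ* e0 = e0 i := by
    intro i
    funext j
    have := congrFun (congrFun hL.ee0 i) j
    exact this
  have hFsum : ∀ (s : Finset (Fin n)) (c : Fin n → RR G),
      F (∑ i ∈ s, c i • e0 i) = ∑ i ∈ s, ι (c i) • F (e0 i) ∧
        (∑ i ∈ s, c i • e0 i) ᵥ* e0 = ∑ i ∈ s, c i • e0 i := by
    intro s c
    induction s using Finset.induction_on with
    | empty =>
      simp only [Finset.sum_empty]
      refine ⟨?_, Matrix.zero_vecMul _⟩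
      have := hFsmul 0 0 (Matrix.zero_vecMul _)
      rw [zero_smul, map_zero, zero_smul] at this
      exact this
    | insert a s ha ih =>
      rw [Finset.sum_insert ha, Finset.sum_insert ha]
      have h1 : (c a • e0 a) ᵥ* e0 = c a • e0 a := by rw [Matrix.smul_vecMul, hrow]
      refine ⟨?_, ?_⟩
      · rw [hFadd _ _ h1 ih.2, ih.1, hFsmul _ _ (hrow a)]
      · rw [Matrix.add_vecMul, h1, ih.2]
  choose ξ hξ using fun i => Submodule.mkQ_surjective U (F (e0 i))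
  let Ξ : Matrix (Fin n) (Fin n) A := ξ
  have hkey : ∀ v : Fin n → RR G, mk (vmap ι (v ᵥ* e1)) = mk (vmap ι (v ᵥ* d0) ᵥ* Ξ) := by
    intro v
    rw [← hFd]
    have h1 : v ᵥ* d0 = ∑ i, (v ᵥ* d0) i • e0 i := by
      conv_lhs => rw [← hL.d0e0, ← Matrix.vecMul_vecMul]
      exact Matrix.vecMul_eq_sum _ _
    have h2 := (hFsum Finset.univ (v ᵥ* d0)).1
    rw [← h1] at h2
    have h3 : vmap ι (v ᵥ* d0) ᵥ* Ξ = ∑ i, vmap ι (v ᵥ* d0) i • ξ i := Matrix.vecMul_eq_sum _ _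
    rw [h2, h3, map_sum]
    refine Finset.sum_congr rfl fun i _ => ?_
    rw [map_smul]
    congr 1
    exact (hξ i).symm
  have hrows : ∀ k : Fin n, ∃ a b : Fin n → A,
      (Pi.single k (1 : A) : Fin n → A) ᵥ* (e1.map ι) - (Pi.single k (1 : A) : Fin n → A) ᵥ* (d0.map ι * Ξ) =
        a ᵥ* d1.map ι + b ᵥ* (1 - e1.map ι) := by
    intro k
    have h1 := hkey (Pi.single k 1)
    have h2 : vmap ι (Pi.single k (1 : RR G) : Fin n → RR G) = Pi.single k (1 : A) := by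
      funext i
      change ι ((Pi.single k (1 : RR G) : Fin n → RR G) i) = _
      rw [Pi.single_apply, Pi.single_apply]
      split_ifs
      · exact map_one ι
      · exact map_zero ι
    rw [← sub_eq_zero, ← map_sub, hmk, vmap_vecMul, vmap_vecMul, h2, Matrix.vecMul_vecMul] at h1
    exact h1
  choose a b hab using hrows
  let Aa : Matrix (Fin n) (Fin n) A := a
  let Bb : Matrix (Fin n) (Fin n) A := b
  have hAB : e1.map ι - d0.map ι * Ξ = Aa * d1.map ι + Bb * (1 - e1.map ι) := by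
    ext1 k j
    have := congrFun (hab k) j
    rw [Pi.sub_apply, Matrix.single_one_vecMul, Matrix.single_one_vecMul] at this
    exact this
  -- the matrices over the algebra
  have E0 : e0.map ι * e0.map ι = e0.map ι := by rw [← map_mulM, hL.ee0]
  have E1 : e1.map ι * e1.map ι = e1.map ι := by rw [← map_mulM, hL.ee1]
  have E2 : e2.map ι * e2.map ι = e2.map ι := by rw [← map_mulM, hL.ee2]
  have E1D0 : e1.map ι * d0.map ι = d0.map ι := by rw [← map_mulM, hL.e1d0]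
  have D0E0 : d0.map ι * e0.map ι = d0.map ι := by rw [← map_mulM, hL.d0e0]
  have E2D1 : e2.map ι * d1.map ι = d1.map ι := by rw [← map_mulM, hL.e2d1]
  have D1E1 : d1.map ι * e1.map ι = d1.map ι := by rw [← map_mulM, hL.d1e1]
  have DD : d1.map ι * d0.map ι = 0 := by
    rw [← map_mulM, hL.dd]
    ext1 i j
    exact map_zero ι
  have hAB' : e1.map ι - d0.map ι * Ξ * e1.map ι = Aa * d1.map ι := by
    have := congrArg (fun M => M * e1.map ι) hAB
    simp only [sub_mul, add_mul, mul_assoc, one_mul, E1, D1E1, sub_self, mul_zero, add_zero] at this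
    rw [mul_assoc]
    exact this
  have hX1 : e1.map ι = d0.map ι * (e0.map ι * Ξ * e1.map ι) + (Aa * e2.map ι) * d1.map ι := by
    rw [mul_assoc Aa, E2D1, ← hAB', ← mul_assoc, ← mul_assoc, D0E0]
    abel
  -- surjectivity in degree zero
  obtain ⟨uu, huu⟩ := ht
  have hY : ∀ i, ∃ v, v ᵥ* d0 = (gof t - 1) • e0 i := by
    intro i
    refine hεex _ (by rw [Matrix.smul_vecMul, hrow]) ?_
    rw [eps_eq hε, map_sub, eps_of, map_one, sub_self, zero_mul]
  choose y hy using hY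
  let Y : MR G n := y
  have hYd : Y * d0 = Matrix.diagonal (fun _ => gof t - 1) * e0 := by
    ext1 i j
    rw [Matrix.diagonal_mul]
    exact congrFun (hy i) j
  have hYd' : e0.map ι = Matrix.diagonal (fun _ => (↑uu⁻¹ : A)) * (Y.map ι) * d0.map ι := by
    rw [mul_assoc, ← map_mulM, hYd]
    ext1 i j
    rw [Matrix.diagonal_mul, Matrix.map_apply, Matrix.map_apply, Matrix.diagonal_mul, map_mul,
      map_sub, map_one, ← huu, ← mul_assoc, Units.inv_mul, one_mul]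
  refine ⟨e0.map ι * Ξ * e1.map ι, Aa * e2.map ι, ?_, hX1, by rw [mul_assoc, E2]⟩
  have h1 : d0.map ι * (e0.map ι - e0.map ι * Ξ * e1.map ι * d0.map ι) = 0 := by
    have h2 : d0.map ι * (e0.map ι * Ξ * e1.map ι) = e1.map ι - (Aa * e2.map ι) * d1.map ι :=
      eq_sub_of_add_eq hX1.symm
    rw [mul_sub, D0E0, ← mul_assoc, h2, sub_mul, E1D0, mul_assoc, DD, mul_zero, sub_zero, sub_self]
  have h3 : e0.map ι * (e0.map ι - e0.map ι * Ξ * e1.map ι * d0.map ι) =
      e0.map ι - e0.map ι * Ξ * e1.map ι * d0.map ι := by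
    rw [mul_sub, E0, ← mul_assoc, ← mul_assoc, ← mul_assoc, E0]
  have h4 : e0.map ι - e0.map ι * Ξ * e1.map ι * d0.map ι = 0 := by
    generalize e0.map ι - e0.map ι * Ξ * e1.map ι * d0.map ι = Δ at h1 h3 ⊢
    rw [← h3, hYd', mul_assoc _ (d0.map ι), h1, mul_zero]
  exact (sub_eq_zero.1 h4).symm

/-- The trace computation: a complex which is split except in degree two. -/
theorem trace_lemma {S : Type*} [Ring S] (Tr : S → ℝ) (hsub : ∀ a b, Tr (a - b) = Tr a - Tr b)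
    (hcomm : ∀ a b, Tr (a * b) = Tr (b * a)) {e0 e1 e2 e3 d0 d1 d2 X0 X1 X3 : S}
    (ee2 : e2 * e2 = e2)
    (e2d1 : e2 * d1 = d1) (d1e1 : d1 * e1 = d1)
    (e3d2 : e3 * d2 = d2) (d2e2 : d2 * e2 = d2) (dd : d1 * d0 = 0) (dd' : d2 * d1 = 0)
    (h0 : X0 * d0 = e0) (h1 : e1 = d0 * X0 + X1 * d1) (h1e : X1 * e2 = X1) (h3 : d2 * X3 = e3) :
    ∃ q : S, q * q = q ∧ Tr q = Tr e0 - Tr e1 + Tr e2 - Tr e3 ∧
      (q = 0 → ∃ X2, e2 = d1 * X1 + X2 * d2) := by
  have hadd : ∀ a b, Tr (a + b) = Tr a + Tr b := by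
    intro a b
    have := hsub (a + b) b
    rw [add_sub_cancel_right] at this
    linarith
  obtain ⟨p, hp⟩ : ∃ p, p = e2 - d1 * X1 := ⟨_, rfl⟩
  have hpd : p * d1 = 0 := by
    have h2 : X1 * d1 = e1 - d0 * X0 := by rw [h1]; abel
    rw [hp, sub_mul, e2d1, mul_assoc, h2, mul_sub, d1e1, ← mul_assoc, dd, zero_mul, sub_zero,
      sub_self]
  have hdp : d2 * p = d2 := by
    rw [hp, mul_sub, d2e2, ← mul_assoc, dd', zero_mul, sub_zero]
  have hpe : p * e2 = p := by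
    rw [hp, sub_mul, ee2, mul_assoc, h1e]
  have hpp : p * p = p := by
    have : p * p = p * e2 - p * d1 * X1 := by
      rw [mul_assoc, ← mul_sub, ← hp]
    rw [this, hpd, zero_mul, sub_zero, hpe]
  refine ⟨p - p * X3 * d2, ?_, ?_, ?_⟩
  · have a1 : p * X3 * d2 * p = p * X3 * d2 := by rw [mul_assoc, hdp]
    have a2 : p * (p * X3 * d2) = p * X3 * d2 := by rw [← mul_assoc, ← mul_assoc, hpp]
    have a3 : p * X3 * d2 * (p * X3 * d2) = p * X3 * d2 := by
      calc p * X3 * d2 * (p * X3 * d2) = p * X3 * (d2 * p) * X3 * d2 := by noncomm_ring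
        _ = p * X3 * (d2 * X3) * d2 := by rw [hdp]; noncomm_ring
        _ = p * X3 * (e3 * d2) := by rw [h3]; noncomm_ring
        _ = p * X3 * d2 := by rw [e3d2]
    rw [sub_mul, mul_sub, mul_sub, hpp, a1, a2, a3]
    abel
  · have b1 : Tr (p * X3 * d2) = Tr e3 := by
      rw [mul_assoc, hcomm, mul_assoc, hdp, hcomm, h3]
    have b2 : Tr p = Tr e2 - Tr (d1 * X1) := by rw [hp, hsub]
    have b3 : Tr (d1 * X1) = Tr e1 - Tr e0 := by
      rw [hcomm, ← h0, hcomm X0, h1, hadd]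
      ring
    rw [hsub, b1, b2, b3]
    ring
  · intro hq
    refine ⟨p * X3, ?_⟩
    rw [← sub_eq_zero.1 hq, hp]
    abel

end

end Pool.Agent.Helper386.PD3
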