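import Pool.Agent.Helper386.PD3.Contr

/-!
The main argument over matrices.
-/

namespace Pool.Agent.Helper386.PD3

set_option linter.unusedSectionVars false

open scoped Classical Matrix

noncomputable section

variable {G : Type} [Group G] {n : ℕ}

/-- A resolution of length three with its dual. -/
structure Full (w : G →* ℤˣ) (e0 e1 e2 e3 d0 d1 d2 : MR G n) : Prop where
  low : Low e0 e1 e2 d0 d1
  colow : Low (dgM w e3) (dgM w e2) (dgM w e1) (dgM w d2) (dgM w d1)

theorem Full.dual {w : G →* ℤˣ} {e0 e1 e2 e3 d0 d1 d2 : MR G n}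
    (h : Full w e0 e1 e2 e3 d0 d1 d2) :
    Full w (dgM w e3) (dgM w e2) (dgM w e1) (dgM w e0) (dgM w d2) (dgM w d1) (dgM w d0) where
  low := h.colow
  colow := by
    rw [dgM_dgM, dgM_dgM, dgM_dgM, dgM_dgM, dgM_dgM]
    exact h.low

theorem Low.exists_Y {e0 e1 e2 d0 d1 : MR G n} (hL : Low e0 e1 e2 d0 d1) (t : G) :
    ∃ Y : MR G n, Y * d0 = Matrix.diagonal (fun _ => gof t - 1) * e0 := by
  obtain ⟨ε, hε, -, -, hεex⟩ := hL.aug
  have hrow : ∀ i, (e0 i) ᵥ* e0 = e0 i := by
    intro i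
    funext j
    have := congrFun (congrFun hL.ee0 i) j
    exact this
  have hY : ∀ i, ∃ v, v ᵥ* d0 = (gof t - 1) • e0 i := by
    intro i
    refine hεex _ (by rw [Matrix.smul_vecMul, hrow]) ?_
    rw [eps_eq hε, map_sub, eps_of, map_one, sub_self, zero_mul]
  choose y hy using hY
  refine ⟨y, ?_⟩
  ext1 i j
  rw [Matrix.diagonal_mul]
  exact congrFun (hy i) j

theorem Tr_dgM (w : G →* ℤˣ) (c : G →* ℝ) (e : MR G n) :
    Tr ((dgM w e).map (iota c)) = Tr (e.map (iota c)) := by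
  refine Finset.sum_congr rfl fun i _ => ?_
  rw [Matrix.map_apply, Matrix.map_apply, τ_iota, τ_iota]
  congr 1
  exact dg_coeff_one w _

theorem map_zeroM {A : Type} [Ring A] (ι : RR G →+* A) : (0 : MR G n).map ι = 0 := by
  ext1 i j
  exact map_zero ι

theorem c_inv (c : G →* ℝ) (t : G) : c t⁻¹ = (c t)⁻¹ := by
  have h : c t * c t⁻¹ = 1 := by rw [← map_mul, mul_inv_cancel, map_one]
  exact eq_inv_of_mul_eq_one_right h

theorem Full.half {w : G →* ℤˣ} {e0 e1 e2 e3 d0 d1 d2 : MR G n}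
    (h : Full w e0 e1 e2 e3 d0 d1 d2) (c : G →* ℝ) (hin : AllInner (iota c)) (t : G)
    (ht : 1 < c t) :
    ∃ q : Matrix (Fin n) (Fin n) (OA G), q * q = q ∧
      Tr q = Tr (e0.map (iota c)) - Tr (e1.map (iota c)) + Tr (e2.map (iota c)) -
        Tr (e3.map (iota c)) ∧
      (q = 0 → ∃ X1 X2 : Matrix (Fin n) (Fin n) (OA G),
        e2.map (iota c) = d1.map (iota c) * X1 + X2 * d2.map (iota c)) := by
  have hu1 : IsUnit (iota c (gof t) - 1) := by
    rw [iota_of]
    apply isUnit_smul_sub_one'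
    rw [abs_of_pos (by linarith)]
    exact ht
  obtain ⟨X0, X1, h1, h2, h3⟩ := exists_contr (iota c) h.low hin t hu1
  have hd2e2 : d2 * e2 = d2 := by
    apply dgM_inj w
    rw [dgM_mul]
    exact h.colow.e1d0
  have he3d2 : e3 * d2 = d2 := by
    apply dgM_inj w
    rw [dgM_mul]
    exact h.colow.d0e0
  have hdd : d2 * d1 = 0 := by
    apply dgM_inj w
    rw [dgM_mul, dgM_zero]
    exact h.colow.dd
  -- top splitting
  obtain ⟨Y, hY⟩ := h.colow.exists_Y t
  have hY2 : d2 * dgM w Y = e3 * Matrix.diagonal (fun _ => dg w (gof t) - 1) := by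
    apply dgM_inj w
    rw [dgM_mul, dgM_dgM, hY, dgM_mul]
    congr 1
    ext1 i j
    rw [dgM]
    by_cases hij : i = j
    · subst hij
      rw [Matrix.diagonal_apply_eq, Matrix.diagonal_apply_eq, dg_sub, dg_dg, dg_one]
    · rw [Matrix.diagonal_apply_ne _ hij, Matrix.diagonal_apply_ne _ (Ne.symm hij), dg_zero]
  have hu2 : IsUnit (iota c (dg w (gof t)) - 1) := by
    have e : iota c (dg w (gof t)) = ((((w t : ℤˣ) : ℤ) : ℝ) * c t⁻¹) • lamA t⁻¹ := by
      rw [dg_of, map_zsmul, iota_of, ← Int.cast_smul_eq_zsmul ℝ]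
      exact smul_smul _ _ _
    rw [e]
    apply isUnit_smul_sub_one
    rw [abs_mul, c_inv, abs_inv, abs_of_pos (by linarith : (0 : ℝ) < c t)]
    have : |(((w t : ℤˣ) : ℤ) : ℝ)| = 1 := by
      rcases Int.units_eq_one_or (w t) with h | h <;> simp [h]
    rw [this, one_mul]
    exact inv_lt_one_of_one_lt₀ ht
  obtain ⟨u, hu⟩ := hu2
  have hX3 : d2.map (iota c) * ((dgM w Y).map (iota c) * Matrix.diagonal (fun _ => (↑u⁻¹ : OA G)))
      = e3.map (iota c) := by
    rw [← mul_assoc, ← map_mulM, hY2]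
    ext1 i j
    rw [Matrix.mul_diagonal, Matrix.map_apply, Matrix.map_apply, Matrix.mul_diagonal, map_mul,
      map_sub, map_one, ← hu, mul_assoc, Units.mul_inv, mul_one]
  obtain ⟨q, hq1, hq2, hq3⟩ := trace_lemma (S := Matrix (Fin n) (Fin n) (OA G)) Tr Tr_sub Tr_comm
    (e0 := e0.map (iota c)) (e1 := e1.map (iota c)) (e2 := e2.map (iota c))
    (e3 := e3.map (iota c)) (d0 := d0.map (iota c)) (d1 := d1.map (iota c))
    (d2 := d2.map (iota c)) (X0 := X0) (X1 := X1)
    (by rw [← map_mulM, h.low.ee2]) (by rw [← map_mulM, h.low.e2d1])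
    (by rw [← map_mulM, h.low.d1e1]) (by rw [← map_mulM, he3d2]) (by rw [← map_mulM, hd2e2])
    (by rw [← map_mulM, h.low.dd, map_zeroM]) (by rw [← map_mulM, hdd, map_zeroM])
    h1 h2 h3 hX3
  exact ⟨q, hq1, hq2, fun hq => ⟨X1, hq3 hq⟩⟩

/-- The contraction over the operator algebra in degree one of the dual. -/
theorem Full.contr {w : G →* ℤˣ} {e0 e1 e2 e3 d0 d1 d2 : MR G n}
    (h : Full w e0 e1 e2 e3 d0 d1 d2) (c : G →* ℝ) (hin : AllInner (iota c)) (t : G)
    (ht : 1 < c t) :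
    ∃ X1 X2 : Matrix (Fin n) (Fin n) (OA G),
        (dgM w e1).map (iota c) = (dgM w d1).map (iota c) * X1 + X2 * (dgM w d0).map (iota c) := by
  obtain ⟨q, hq1, hq2, hq3⟩ := h.half c hin t ht
  obtain ⟨q', hq1', hq2', hq3'⟩ := h.dual.half c hin t ht
  rw [Tr_dgM, Tr_dgM, Tr_dgM, Tr_dgM] at hq2'
  have h1 := (idem_trace hq1).1
  obtain ⟨h2, h3⟩ := idem_trace hq1'
  exact hq3' (h3 (by linarith))

/-- A contraction in degree one makes all derivations inner. -/
theorem allInner_of_contr {B : Type} [Ring B] (j : RR G →+* B) {e0 e1 e2 d0 d1 : MR G n}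
    (hL : Low e0 e1 e2 d0 d1) (Z1 Z2 : Matrix (Fin n) (Fin n) B)
    (hZ : e1.map j = Z1 * d1.map j + d0.map j * Z2) : AllInner j := by
  intro N _ _ δ hδ
  obtain ⟨ε, hε, ⟨u0, hu0, hεu0⟩, hεd, hεex⟩ := hL.aug
  let ci : Fin n → ℤ := fun i => ε (Pi.single i 1)
  have hεc : ∀ v, ε v = ∑ i, eps (v i) * ci i := by
    intro v
    have h1 : v = ∑ i, v i • (Pi.single i (1 : RR G) : Fin n → RR G) := by
      funext k
      rw [Finset.sum_apply, Finset.sum_eq_single k]
      · simp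
      · intro i _ hi
        rw [Pi.smul_apply, Pi.single_eq_of_ne (Ne.symm hi), smul_zero]
      · intro h
        exact absurd (Finset.mem_univ k) h
    conv_lhs => rw [h1, map_sum]
    exact Finset.sum_congr rfl fun i _ => eps_eq hε _ _
  let f0 : (Fin n → RR G) → N := fun v => ∑ i, ci i • addR δ (v i)
  have hf0add : ∀ v v', f0 (v + v') = f0 v + f0 v' := by
    intro v v'
    change ∑ i, ci i • addR δ (v i + v' i) = ∑ i, ci i • addR δ (v i) + ∑ i, ci i • addR δ (v' i)
    rw [← Finset.sum_add_distrib]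
    exact Finset.sum_congr rfl fun i _ => by rw [map_add, smul_add]
  have hf0smul : ∀ r v, f0 (r • v) = j r • f0 v + ε v • addR δ r := by
    intro r v
    change ∑ i, ci i • addR δ (r * v i) = j r • ∑ i, ci i • addR δ (v i) + ε v • addR δ r
    rw [hεc, Finset.smul_sum, Finset.sum_smul, ← Finset.sum_add_distrib]
    refine Finset.sum_congr rfl fun i _ => ?_
    rw [hδ.ext, smul_add, smul_comm (j r), smul_smul, mul_comm (ci i)]
  have hf0zero : f0 0 = 0 := by
    have := hf0add 0 0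
    rw [add_zero] at this
    simpa using this
  have hf0sum : ∀ (s : Finset (Fin n)) (F : Fin n → (Fin n → RR G)),
      f0 (∑ i ∈ s, F i) = ∑ i ∈ s, f0 (F i) := by
    intro s F
    induction s using Finset.induction_on with
    | empty => rw [Finset.sum_empty, Finset.sum_empty, hf0zero]
    | insert a s ha ih => rw [Finset.sum_insert ha, Finset.sum_insert ha, hf0add, ih]
  let φ : Fin n → N := fun i => f0 (d0 i)
  have hεd0 : ∀ i, ε (d0 i) = 0 := by
    intro i
    have := hεd (Pi.single i 1)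
    rwa [Matrix.single_one_vecMul] at this
  have hφ : ∀ v : Fin n → RR G, f0 (v ᵥ* d0) = ∑ i, j (v i) • φ i := by
    intro v
    have h1 : v ᵥ* d0 = ∑ i, v i • d0 i := Matrix.vecMul_eq_sum _ _
    rw [h1, hf0sum]
    refine Finset.sum_congr rfl fun i _ => ?_
    rw [hf0smul, hεd0, zero_smul, add_zero]
  have hd1φ : ∀ i, ∑ k, j (d1 i k) • φ k = 0 := by
    intro i
    rw [← hφ (d1 i)]
    have : (d1 i) ᵥ* d0 = (d1 * d0) i := rfl
    rw [this, hL.dd]
    exact hf0zero
  have he1φ : ∀ i, ∑ k, j (e1 i k) • φ k = φ i := by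
    intro i
    rw [← hφ (e1 i)]
    have : (e1 i) ᵥ* d0 = (e1 * d0) i := rfl
    rw [this, hL.e1d0]
  let θ : Fin n → N := fun i => ∑ k, Z2 i k • φ k
  have hφθ : ∀ i, φ i = ∑ k, j (d0 i k) • θ k := by
    intro i
    rw [← he1φ i]
    have h1 : ∀ k, j (e1 i k) = ∑ l, Z1 i l * j (d1 l k) + ∑ l, j (d0 i l) * Z2 l k := by
      intro k
      have := congrFun (congrFun hZ i) k
      exact this
    simp only [h1, add_smul, Finset.sum_add_distrib, Finset.sum_smul]
    have h2 : ∑ k, ∑ l, (Z1 i l * j (d1 l k)) • φ k = 0 := by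
      rw [Finset.sum_comm]
      refine Finset.sum_eq_zero fun l _ => ?_
      simp only [mul_smul]
      rw [← Finset.smul_sum, hd1φ, smul_zero]
    have h3 : ∑ k, ∑ l, (j (d0 i l) * Z2 l k) • φ k = ∑ k, j (d0 i k) • θ k := by
      rw [Finset.sum_comm]
      refine Finset.sum_congr rfl fun l _ => ?_
      change _ = j (d0 i l) • ∑ k, Z2 l k • φ k
      rw [Finset.smul_sum]
      exact Finset.sum_congr rfl fun k _ => mul_smul _ _ _
    rw [h2, h3, zero_add]
  let f' : (Fin n → RR G) → N := fun v => ∑ k, j (v k) • θ k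
  have hf'd : ∀ v : Fin n → RR G, f' (v ᵥ* d0) = f0 (v ᵥ* d0) := by
    intro v
    rw [hφ]
    simp only [hφθ]
    change ∑ k, j ((v ᵥ* d0) k) • θ k = _
    have h1 : ∀ k, j ((v ᵥ* d0) k) = ∑ i, j (v i) * j (d0 i k) := by
      intro k
      change j (∑ i, v i * d0 i k) = _
      rw [map_sum]
      exact Finset.sum_congr rfl fun i _ => map_mul _ _ _
    simp only [h1, Finset.sum_smul, Finset.smul_sum, mul_smul]
    rw [Finset.sum_comm]
  refine ⟨-(f0 u0 - f' u0), fun g => ?_⟩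
  obtain ⟨v, hv⟩ : ∃ v, v ᵥ* d0 = gof g • u0 - u0 := by
    refine hεex _ ?_ ?_
    · rw [Matrix.sub_vecMul, Matrix.smul_vecMul, hu0]
    · rw [map_sub, hε, sub_self]
  have h1 := hf'd v
  rw [hv] at h1
  have h2 : f0 (gof g • u0 - u0) + f0 u0 = j (gof g) • f0 u0 + δ g := by
    rw [← hf0add, sub_add_cancel, hf0smul, hεu0, one_smul, addR_of]
  have h3 : f' (gof g • u0 - u0) + f' u0 = j (gof g) • f' u0 := by
    change ∑ k, j (gof g * u0 k - u0 k) • θ k + ∑ k, j (u0 k) • θ k =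
      j (gof g) • ∑ k, j (u0 k) • θ k
    rw [← Finset.sum_add_distrib, Finset.smul_sum]
    refine Finset.sum_congr rfl fun k _ => ?_
    rw [← add_smul, map_sub, sub_add_cancel, map_mul, mul_smul]
  have h4 : δ g = (f0 (gof g • u0 - u0) + f0 u0) - j (gof g) • f0 u0 := by
    rw [h2]
    abel
  rw [h4, ← h1, smul_neg, smul_sub, ← h3]
  abel

end

end Pool.Agent.Helper386.PD3
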