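import Pool.Agent.Helper386.PD3.Hnn
import Pool.Agent.Helper158.Grp

/-!
The graph manifold group of `Helper158` is a properly ascending HNN extension of an infinitely
generated group.
-/

namespace Pool.Agent.Helper386.PD3

open LaurentPolynomial Pool.Agent.Helper158

noncomputable section

/-- the affine group of the Laurent polynomial ring -/
@[ext] structure QQ : Type where
  n : ℤ
  f : LaurentPolynomial ℤ

namespace QQ

instance : Mul QQ := ⟨fun a b => ⟨a.n + b.n, a.f + T a.n * b.f⟩⟩
instance : One QQ := ⟨⟨0, 0⟩⟩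
instance : Inv QQ := ⟨fun a => ⟨-a.n, -(T (-a.n) * a.f)⟩⟩

theorem mul_n (a b : QQ) : (a * b).n = a.n + b.n := rfl
theorem mul_f (a b : QQ) : (a * b).f = a.f + T a.n * b.f := rfl
theorem one_n : (1 : QQ).n = 0 := rfl
theorem one_f : (1 : QQ).f = 0 := rfl
theorem inv_n (a : QQ) : (a⁻¹).n = -a.n := rfl
theorem inv_f (a : QQ) : (a⁻¹).f = -(T (-a.n) * a.f) := rfl

instance : Group QQ :=
  Group.ofLeftAxioms
    (by
      intro a b c
      ext1
      · simp only [mul_n]; ring
      · simp only [mul_f, mul_n, T_add]; ring)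
    (by
      intro a
      ext1
      · simp only [mul_n, one_n]; ring
      · simp only [mul_f, one_f, one_n, T_zero]; ring)
    (by
      intro a
      ext1
      · simp only [mul_n, inv_n, one_n]; ring
      · simp only [mul_f, inv_f, inv_n, one_f]; ring)

end QQ

/-- the homomorphism on the vertex groups -/
def vhom (q : QQ) : V →* QQ :=
  (FreeGroup.lift (fun b : Bool => if b then q else 1)).comp (MonoidHom.fst _ _)

theorem vhom_s (q : QQ) (k : ℤ) (z : Multiplicative ℤ) : vhom q (sF ^ k, z) = 1 := by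
  change FreeGroup.lift (fun b : Bool => if b then q else 1) (sF ^ k) = 1
  rw [map_zpow]
  have : FreeGroup.lift (fun b : Bool => if b then q else 1) sF = 1 := by
    simp [sF]
  rw [this, one_zpow]

/-- `t` -/
def qt : QQ := ⟨1, 0⟩
/-- a translation -/
def qc : QQ := ⟨0, 1⟩

/-- a homomorphism onto the affine group -/
def psi : GM →* QQ :=
  Monoid.PushoutI.lift (fun i => vhom (if i then qt else qc)) 1 (by
    intro i
    ext1 p
    cases i
    · exact vhom_s _ _ _
    · exact vhom_s _ _ _)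

theorem psi_gA : psi gA = qt := by
  have h : psi gA = vhom (if true then qt else qc) (FreeGroup.of true, 1) :=
    Monoid.PushoutI.lift_of _ _ _ _
  rw [h]
  change FreeGroup.lift (fun b : Bool => if b then qt else 1) (FreeGroup.of true) = _
  simp

theorem psi_gC : psi gC = qc := by
  have h : psi gC = vhom (if false then qt else qc) (FreeGroup.of true, 1) :=
    Monoid.PushoutI.lift_of _ _ _ _
  rw [h]
  change FreeGroup.lift (fun b : Bool => if b then qc else 1) (FreeGroup.of true) = _
  simp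

/-- the character -/
def chi : GM →* Multiplicative ℤ where
  toFun g := Multiplicative.ofAdd (psi g).n
  map_one' := by rw [map_one]; rfl
  map_mul' g h := by rw [map_mul]; rfl

/-- the base -/
def KK : Subgroup GM where
  carrier := {g | (psi g).n = 0 ∧ ∃ p : Polynomial ℤ, (psi g).f = Polynomial.toLaurent p}
  one_mem' := by
    refine ⟨by rw [map_one]; rfl, 0, ?_⟩
    rw [map_one, map_zero]
    rfl
  mul_mem' := by
    rintro g h ⟨h1, p, hp⟩ ⟨h2, q, hq⟩
    refine ⟨?_, p + q, ?_⟩
    · rw [map_mul, QQ.mul_n, h1, h2, add_zero]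
    · rw [map_mul, QQ.mul_f, h1, T_zero, one_mul, hp, hq, map_add]
  inv_mem' := by
    rintro g ⟨h1, p, hp⟩
    refine ⟨?_, -p, ?_⟩
    · rw [map_inv, QQ.inv_n, h1, neg_zero]
    · rw [map_inv, QQ.inv_f, h1, neg_zero, T_zero, one_mul, hp, map_neg]

theorem psi_pow (k : ℕ) : psi (gA ^ k) = ⟨k, 0⟩ := by
  induction k with
  | zero =>
    rw [pow_zero, map_one]
    rfl
  | succ k ih =>
    rw [pow_succ, map_mul, ih, psi_gA]
    ext1
    · rw [QQ.mul_n]
      push_cast
      rfl
    · rw [QQ.mul_f]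
      change (0 : LaurentPolynomial ℤ) + T (k : ℤ) * 0 = 0
      rw [mul_zero, add_zero]

theorem psi_conj (k : ℕ) (g : GM) : psi (gA ^ k * g * (gA ^ k)⁻¹) =
    ⟨(psi g).n, T (k : ℤ) * (psi g).f⟩ := by
  rw [map_mul, map_mul, map_inv, psi_pow]
  ext1
  · rw [QQ.mul_n, QQ.mul_n, QQ.inv_n]
    change (k : ℤ) + (psi g).n + -(k : ℤ) = (psi g).n
    ring
  · rw [QQ.mul_f, QQ.mul_f, QQ.inv_f]
    change (0 : LaurentPolynomial ℤ) + T (k : ℤ) * (psi g).f + _ * -(T (-(k : ℤ)) * 0) = _
    rw [mul_zero, neg_zero, mul_zero, zero_add, add_zero]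

theorem GM_asc : ∃ (φ : KK →* KK) (hφ : Function.Injective φ), ¬ Function.Surjective φ ∧
    Nonempty (GM ≃* AscHNN KK φ hφ) := by
  refine exists_asc chi gA ?_ KK ?_ ?_ ?_ ?_
  · change Multiplicative.ofAdd (psi gA).n = _
    rw [psi_gA]
    rfl
  · rintro g ⟨h1, p, hp⟩
    have h := psi_conj 1 g
    rw [pow_one] at h
    refine ⟨?_, Polynomial.X * p, ?_⟩
    · rw [h]
      exact h1
    · rw [h, map_mul, Polynomial.toLaurent_X, ← hp]
      rfl
  · rintro g ⟨h1, -⟩
    change Multiplicative.ofAdd (psi g).n = 1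
    rw [h1]
    rfl
  · intro g hg
    have h1 : (psi g).n = 0 := Multiplicative.ofAdd.injective hg
    obtain ⟨k, p, hp⟩ := LaurentPolynomial.exists_T_pow (psi g).f
    refine ⟨k, ?_, p, ?_⟩
    · rw [psi_conj]
      exact h1
    · rw [psi_conj, hp, mul_comm]
  · refine ⟨gC, ⟨?_, 1, ?_⟩, ?_⟩
    · rw [psi_gC]
      rfl
    · rw [psi_gC, map_one]
      rfl
    · rintro ⟨-, p, hp⟩
      have h1 : psi (gA⁻¹ * gC * gA) = ⟨0, T (-1)⟩ := by
        rw [map_mul, map_mul, map_inv, psi_gA, psi_gC]
        ext1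
        · rfl
        · rw [QQ.mul_f, QQ.mul_f, QQ.inv_f]
          change -(T (-1 : ℤ) * (0 : LaurentPolynomial ℤ)) + T (-1) * 1 + _ * 0 = T (-1)
          rw [mul_zero, mul_zero, neg_zero, mul_one, zero_add, add_zero]
      rw [h1] at hp
      have h2 : Polynomial.toLaurent (p * Polynomial.X) = Polynomial.toLaurent (1 : Polynomial ℤ) := by
        rw [map_mul, ← hp, Polynomial.toLaurent_X, ← T_add, map_one]
        exact T_zero
      have h3 := Polynomial.toLaurent_injective h2
      have h4 := congrArg (Polynomial.eval 0) h3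
      simp at h4

end

end Pool.Agent.Helper386.PD3
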