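import Pool.Agent.Helper386.PD3.Last

/-!
The main theorem over matrices.
-/

namespace Pool.Agent.Helper386.PD3

set_option linter.unusedSectionVars false

open scoped Classical Matrix ENNReal

noncomputable section

variable {G : Type} [Group G]

/-- the twisting character -/
def kap (w : G →* ℤˣ) (c : G →* ℝ) : G →* ℝ where
  toFun g := (((w g : ℤˣ) : ℤ) : ℝ) * (c g)⁻¹
  map_one' := by simp
  map_mul' g h := by
    rw [map_mul, map_mul, Units.val_mul, Int.cast_mul, mul_inv]
    ring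

theorem kap_apply (w : G →* ℤˣ) (c : G →* ℝ) (g : G) :
    kap w c g = (((w g : ℤˣ) : ℤ) : ℝ) * (c g)⁻¹ := rfl

theorem abs_kap (w : G →* ℤˣ) (c : G →* ℝ) (g : G) : |kap w c g| = |c g|⁻¹ := by
  rw [kap_apply, abs_mul, abs_inv]
  have : |(((w g : ℤˣ) : ℤ) : ℝ)| = 1 := by
    rcases Int.units_eq_one_or (w g) with h | h <;> simp [h]
  rw [this, one_mul]

theorem eq_zero_of_pow {s a C : ℝ} (hs : 1 < s) (ha : 0 ≤ a) (h : ∀ k : ℕ, s ^ k * a ≤ C) :
    a = 0 := by
  by_contra hne
  have hpos : 0 < a := lt_of_le_of_ne ha (Ne.symm hne)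
  obtain ⟨k, hk⟩ := pow_unbounded_of_one_lt (C / a) hs
  have h1 := h k
  rw [div_lt_iff₀ hpos] at hk
  linarith

theorem core {n : ℕ} {w : G →* ℤˣ} {e0 e1 e2 e3 d0 d1 d2 : MR G n}
    (h : Full w e0 e1 e2 e3 d0 d1 d2) (H : Subgroup G) (hH : H.FG) (t : G)
    (hgen : Subgroup.closure ((H : Set G) ∪ {t}) = ⊤) (htH : ∀ x ∈ H, t * x * t⁻¹ ∈ H)
    (χ : G →* Multiplicative ℤ) (hχH : ∀ x ∈ H, χ x = 1) (hχt : χ t = Multiplicative.ofAdd 1) :
    ∀ x ∈ H, t⁻¹ * x * t ∈ H := by
  obtain ⟨s0, hs0⟩ := exists_weight H hH t hgen htH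
  obtain ⟨s, hs1, hs2⟩ : ∃ s : ℝ, s0 < s ∧ 1 < s :=
    ⟨max s0 1 + 1, by linarith [le_max_left s0 1], by linarith [le_max_right s0 1]⟩
  have hsne : s ≠ 0 := by linarith
  obtain ⟨c, hcH, hct⟩ : ∃ c : G →* ℝ, (∀ x ∈ H, c x = 1) ∧ c t = s := by
    refine ⟨chr χ (Units.mk0 s hsne), fun x hx => ?_, ?_⟩
    · rw [chr_apply, hχH x hx]
      simp
    · rw [chr_apply, hχt]
      simp
  have hjj : AllInner (jj w c) :=
    allInner_jj h c (hs0 c hcH (by rw [hct]; exact hs1) (by rw [hct]; exact hs2)) t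
      (by rw [hct]; exact hs2)
  intro x hx
  by_contra hxt
  let κ : G →* ℝ := kap w c
  let P : G → Prop := fun y => ∃ k : ℕ, t ^ k * y ∈ H
  let μh : G → ℝ := fun y => if P y then κ y else 0
  have hpow : ∀ (k : ℕ) (y : G), y ∈ H → t ^ k * y * (t ^ k)⁻¹ ∈ H := by
    intro k
    induction k with
    | zero =>
      intro y hy
      simpa using hy
    | succ k ih =>
      intro y hy
      have h1 := ih _ (htH y hy)
      have e : t ^ (k + 1) * y * (t ^ (k + 1))⁻¹ = t ^ k * (t * y * t⁻¹) * (t ^ k)⁻¹ := by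
        rw [pow_succ]
        group
      rw [e]
      exact h1
  have hPH : ∀ a ∈ H, ∀ y, P (a⁻¹ * y) ↔ P y := by
    intro a ha y
    constructor
    · rintro ⟨k, hk⟩
      refine ⟨k, ?_⟩
      have e : t ^ k * y = (t ^ k * a * (t ^ k)⁻¹) * (t ^ k * (a⁻¹ * y)) := by group
      rw [e]
      exact mul_mem (hpow k a ha) hk
    · rintro ⟨k, hk⟩
      refine ⟨k, ?_⟩
      have e : t ^ k * (a⁻¹ * y) = (t ^ k * a⁻¹ * (t ^ k)⁻¹) * (t ^ k * y) := by group
      rw [e]
      exact mul_mem (hpow k _ (inv_mem ha)) hk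
  have hκ : ∀ g y, κ g * κ (g⁻¹ * y) = κ y := by
    intro g y
    rw [← map_mul, mul_inv_cancel_left]
  have hex : ∀ g : G, ∃ ν : NN G, ∀ y, ν.ev (dl1 y) = κ g * μh (g⁻¹ * y) - μh y := by
    intro g
    have hg : g ∈ Subgroup.closure ((H : Set G) ∪ {t}) := by
      rw [hgen]
      trivial
    induction hg using Subgroup.closure_induction with
    | mem a ha =>
      rcases ha with ha | ha
      · refine ⟨0, fun y => ?_⟩
        have h1 : κ a * μh (a⁻¹ * y) = μh y := by
          change κ a * (if P (a⁻¹ * y) then κ (a⁻¹ * y) else 0) = if P y then κ y else 0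
          by_cases hP : P y
          · rw [if_pos hP, if_pos ((hPH a ha y).2 hP), hκ]
          · rw [if_neg hP, if_neg (fun h' => hP ((hPH a ha y).1 h')), mul_zero]
        rw [h1, sub_self]
        rfl
      · rw [Set.mem_singleton_iff.1 ha]
        refine exists_functional (fun y => κ t * μh (t⁻¹ * y) - μh y) |κ t| (fun y => ?_)
        change |κ t * (if P (t⁻¹ * y) then κ (t⁻¹ * y) else 0) - (if P y then κ y else 0)| ≤ _
        have h1 : P y → P (t⁻¹ * y) := by
          rintro ⟨k, hk⟩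
          refine ⟨k + 1, ?_⟩
          have e : t ^ (k + 1) * (t⁻¹ * y) = t ^ k * y := by
            rw [pow_succ]
            group
          rw [e]
          exact hk
        by_cases hP : P y
        · rw [if_pos hP, if_pos (h1 hP), hκ, sub_self, abs_zero]
          exact abs_nonneg _
        · rw [if_neg hP]
          by_cases hP' : P (t⁻¹ * y)
          · rw [if_pos hP', sub_zero, abs_mul]
            have hy : t⁻¹ * y ∈ H := by
              obtain ⟨k, hk⟩ := hP'
              cases k with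
              | zero => simpa using hk
              | succ k =>
                exfalso
                apply hP
                refine ⟨k, ?_⟩
                have e : t ^ (k + 1) * (t⁻¹ * y) = t ^ k * y := by
                  rw [pow_succ]
                  group
                rw [← e]
                exact hk
            have h2 : |κ (t⁻¹ * y)| = 1 := by
              change |kap w c (t⁻¹ * y)| = 1
              rw [abs_kap, hcH _ hy]
              simp
            rw [h2, mul_one]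
          · rw [if_neg hP', mul_zero, sub_zero, abs_zero]
            exact abs_nonneg _
    | one =>
      refine ⟨0, fun y => ?_⟩
      rw [map_one, inv_one, one_mul, one_mul, sub_self]
      rfl
    | mul a b _ _ iha ihb =>
      obtain ⟨νa, ha⟩ := iha
      obtain ⟨νb, hb⟩ := ihb
      refine ⟨νa + jj w c (gof a) • νb, fun y => ?_⟩
      rw [NN.ev_add, ev_jj, ha, hb]
      change _ + κ a * _ = _
      rw [map_mul, mul_inv_rev, mul_assoc b⁻¹]
      ring
    | inv a _ iha =>
      obtain ⟨νa, ha⟩ := iha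
      refine ⟨-(jj w c (gof a⁻¹) • νa), fun y => ?_⟩
      rw [NN.ev_neg, ev_jj, ha]
      change -(κ a⁻¹ * _) = _
      rw [inv_inv, inv_mul_cancel_left]
      have h1 : κ a⁻¹ * κ a = 1 := by rw [← map_mul, inv_mul_cancel, map_one]
      linear_combination (-(μh y)) * h1
  choose δ hδ using hex
  have hder : IsDer (jj w c) δ := by
    intro g k
    apply NN.ext
    intro y
    rw [NN.ev_add, ev_jj, hδ, hδ, hδ]
    change _ = _ + κ g * _
    rw [map_mul, mul_inv_rev, mul_assoc k⁻¹]
    ring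
  obtain ⟨μ, hμ⟩ := hjj (NN G) δ hder
  let m : G → ℝ := fun y => μ.ev (dl1 y)
  let C : ℝ := ‖(show L1 G →L[ℝ] ℝ from μ)‖
  have hm : ∀ y, |m y| ≤ C := by
    intro y
    have h1 := (show L1 G →L[ℝ] ℝ from μ).le_opNorm (dl1 y)
    rw [norm_dl1, mul_one] at h1
    exact h1
  have heq : ∀ g, μh g = κ g * (1 - m 1) + m g := by
    intro g
    have h1 := hδ g g
    rw [hμ, NN.ev_sub, ev_jj, inv_mul_cancel] at h1
    have h2 : μh 1 = 1 := by
      change (if P 1 then κ 1 else 0) = 1
      rw [if_pos ⟨0, by simp⟩, map_one]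
    rw [h2] at h1
    change κ g * m 1 - m g = _ at h1
    linear_combination h1
  have hκt : ∀ k : ℕ, |κ ((t⁻¹) ^ k)| = s ^ k := by
    intro k
    change |kap w c ((t⁻¹) ^ k)| = s ^ k
    rw [abs_kap, map_pow, c_inv, hct, abs_pow, abs_inv, abs_of_pos (by linarith : (0 : ℝ) < s),
      inv_pow, inv_inv]
  have hD1 : |m 1| = 0 := by
    refine eq_zero_of_pow hs2 (abs_nonneg _) (C := C) (fun k => ?_)
    have h1 := heq ((t⁻¹) ^ k)
    have h2 : μh ((t⁻¹) ^ k) = κ ((t⁻¹) ^ k) := by
      change (if P ((t⁻¹) ^ k) then κ ((t⁻¹) ^ k) else 0) = _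
      rw [if_pos ⟨k, by rw [inv_pow, mul_inv_cancel]; exact H.one_mem⟩]
    rw [h2] at h1
    have h3 : κ ((t⁻¹) ^ k) * m 1 = m ((t⁻¹) ^ k) := by linear_combination h1
    rw [← hκt, ← abs_mul, h3]
    exact hm _
  have hD2 : |1 - m 1| = 0 := by
    refine eq_zero_of_pow hs2 (abs_nonneg _) (C := C) (fun k => ?_)
    have h1 := heq ((t⁻¹) ^ k * (t⁻¹ * x * t))
    have hca : c (t⁻¹ * x * t) = 1 := by
      rw [map_mul, map_mul, c_inv, hcH x hx, hct]
      field_simp
    have h2 : μh ((t⁻¹) ^ k * (t⁻¹ * x * t)) = 0 := by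
      change (if P ((t⁻¹) ^ k * (t⁻¹ * x * t)) then _ else 0) = _
      rw [if_neg]
      rintro ⟨l, hl⟩
      have h3 := hcH _ hl
      rw [map_mul, map_mul, hca, mul_one, map_pow, map_pow, c_inv, hct, inv_pow] at h3
      have h4 : s ^ l = s ^ k := by
        field_simp at h3
        exact h3
      have h5 : l = k := pow_right_injective₀ (by linarith) (by linarith [hs2] : s ≠ 1) h4
      subst h5
      apply hxt
      have e : t ^ l * ((t⁻¹) ^ l * (t⁻¹ * x * t)) = t⁻¹ * x * t := by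
        rw [inv_pow, mul_inv_cancel_left]
      rw [← e]
      exact hl
    rw [h2, map_mul] at h1
    have h3 : κ ((t⁻¹) ^ k) * (κ (t⁻¹ * x * t) * (1 - m 1)) = -m ((t⁻¹) ^ k * (t⁻¹ * x * t)) := by
      linear_combination -h1
    have h4 : |κ (t⁻¹ * x * t)| = 1 := by
      change |kap w c (t⁻¹ * x * t)| = 1
      rw [abs_kap, hca]
      simp
    have h5 : s ^ k * |1 - m 1| = |κ ((t⁻¹) ^ k) * (κ (t⁻¹ * x * t) * (1 - m 1))| := by
      rw [abs_mul, abs_mul, h4, hκt, one_mul]
    rw [h5, h3, abs_neg]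
    exact hm _
  rw [abs_eq_zero] at hD1 hD2
  rw [hD1] at hD2
  norm_num at hD2

end

end Pool.Agent.Helper386.PD3
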