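import Pool.Agent.Helper386.PD3.Alg

/-!
For a group generated by `H` and `t` with `t H t⁻¹ ≤ H`, all derivations with values in modules
over the operator algebra are inner, when `t` is given a large weight.
-/

namespace Pool.Agent.Helper386.PD3

set_option linter.unusedSectionVars false

open scoped Classical

noncomputable section

section mat

variable {A : Type*} [NormedRing A] [NormedAlgebra ℝ A] [CompleteSpace A] {d : ℕ}

open scoped Matrix.Norms.Operator

omit [NormedAlgebra ℝ A] in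
theorem complete_mat : @CompleteSpace (Matrix (Fin d) (Fin d) A)
    (Matrix.linftyOpNormedRing.toMetricSpace.toPseudoMetricSpace.toUniformSpace) := by
  have h : CompleteSpace (Fin d → Fin d → A) := inferInstance
  exact h

theorem exists_inv_one_sub (M : Matrix (Fin d) (Fin d) A) :
    ∃ s0 : ℝ, ∀ s : ℝ, s0 < s → ∃ S : Matrix (Fin d) (Fin d) A, S * (1 - s⁻¹ • M) = 1 := by
  have := complete_mat (A := A) (d := d)
  refine ⟨‖M‖, fun s hs => ?_⟩
  have hs0 : 0 < s := lt_of_le_of_lt (norm_nonneg _) hs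
  have h1 : ‖s⁻¹ • M‖ < 1 := by
    refine (norm_smul_le _ _).trans_lt ?_
    rw [Real.norm_eq_abs, abs_inv, abs_of_pos hs0, inv_mul_lt_iff₀ hs0, mul_one]
    exact hs
  obtain ⟨u, hu⟩ := isUnit_one_sub_of_norm_lt_one h1
  exact ⟨↑u⁻¹, by rw [← hu, Units.inv_mul]⟩

end mat

variable {G : Type} [Group G]

/-- independence of the weight -/
def Flat (H : Subgroup G) (x : RR G) : Prop :=
  ∀ c : G →* ℝ, (∀ h ∈ H, c h = 1) → iota c x = iota 1 x

theorem flat_of {H : Subgroup G} {h : G} (hh : h ∈ H) : Flat H (gof h) := by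
  intro c hc
  rw [iota_of, iota_of, hc h hh]
  rfl

theorem flat_zero {H : Subgroup G} : Flat H 0 := by
  intro c hc
  rw [map_zero, map_zero]

theorem flat_one {H : Subgroup G} : Flat H 1 := by
  intro c hc
  rw [map_one, map_one]

theorem flat_add {H : Subgroup G} {x y : RR G} (hx : Flat H x) (hy : Flat H y) :
    Flat H (x + y) := by
  intro c hc
  rw [map_add, map_add, hx c hc, hy c hc]

theorem flat_neg {H : Subgroup G} {x : RR G} (hx : Flat H x) : Flat H (-x) := by
  intro c hc
  rw [map_neg, map_neg, hx c hc]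

theorem flat_mul {H : Subgroup G} {x y : RR G} (hx : Flat H x) (hy : Flat H y) :
    Flat H (x * y) := by
  intro c hc
  rw [map_mul, map_mul, hx c hc, hy c hc]

theorem exists_fox {d : ℕ} (h : Fin d → G) {x : G} (hx : x ∈ Subgroup.closure (Set.range h)) :
    ∃ W : Fin d → RR G, gof x - 1 = ∑ j, W j * (gof (h j) - 1) ∧
      ∀ j, Flat (Subgroup.closure (Set.range h)) (W j) := by
  induction hx using Subgroup.closure_induction with
  | mem x hx =>
    obtain ⟨i, rfl⟩ := hx
    refine ⟨Pi.single i 1, ?_, ?_⟩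
    · rw [Finset.sum_eq_single i]
      · rw [Pi.single_eq_same, one_mul]
      · intro j _ hj
        rw [Pi.single_eq_of_ne hj, zero_mul]
      · intro h
        exact absurd (Finset.mem_univ i) h
    · intro j
      by_cases hj : j = i
      · subst hj
        rw [Pi.single_eq_same]
        exact flat_one
      · rw [Pi.single_eq_of_ne hj]
        exact flat_zero
  | one =>
    refine ⟨0, ?_, fun j => flat_zero⟩
    rw [gof_one, sub_self]
    simp
  | mul x y hx hy ihx ihy =>
    obtain ⟨Wx, h1, h2⟩ := ihx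
    obtain ⟨Wy, h3, h4⟩ := ihy
    refine ⟨fun j => gof x * Wy j + Wx j, ?_, fun j =>
      flat_add (flat_mul (flat_of hx) (h4 j)) (h2 j)⟩
    have e : gof (x * y) - 1 = gof x * (gof y - 1) + (gof x - 1) := by
      rw [gof_mul, mul_sub, mul_one]
      abel
    rw [e, h3, h1, Finset.mul_sum, ← Finset.sum_add_distrib]
    exact Finset.sum_congr rfl fun j _ => by rw [add_mul, mul_assoc]
  | inv x hx ihx =>
    obtain ⟨Wx, h1, h2⟩ := ihx
    refine ⟨fun j => -(gof x⁻¹ * Wx j), ?_, fun j =>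
      flat_neg (flat_mul (flat_of (inv_mem hx)) (h2 j))⟩
    have e : gof x⁻¹ - 1 = -(gof x⁻¹ * (gof x - 1)) := by
      rw [mul_sub, mul_one, ← gof_mul, inv_mul_cancel, gof_one]
      abel
    rw [e, h1, Finset.mul_sum, ← Finset.sum_neg_distrib]
    exact Finset.sum_congr rfl fun j _ => by rw [neg_mul, mul_assoc]

/-- the character `g ↦ s ^ χ g` -/
def chr (χ : G →* Multiplicative ℤ) (s : ℝˣ) : G →* ℝ :=
  (Units.coeHom ℝ).comp ((zpowersHom ℝˣ s).comp χ)

theorem chr_apply (χ : G →* Multiplicative ℤ) (s : ℝˣ) (g : G) :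
    chr χ s g = (s : ℝ) ^ (Multiplicative.toAdd (χ g)) := by
  simp [chr]

theorem exists_weight (H : Subgroup G) (hH : H.FG) (t : G)
    (hgen : Subgroup.closure ((H : Set G) ∪ {t}) = ⊤) (htH : ∀ x ∈ H, t * x * t⁻¹ ∈ H) :
    ∃ s0 : ℝ, ∀ c : G →* ℝ, (∀ h ∈ H, c h = 1) → s0 < c t → 1 < c t → AllInner (iota c) := by
  obtain ⟨S, hS⟩ := hH
  obtain ⟨d, h, hh⟩ : ∃ (d : ℕ) (h : Fin d → G), Set.range h = (S : Set G) := by
    refine ⟨S.card, fun i => (S.equivFin.symm i : G), ?_⟩
    ext x
    constructor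
    · rintro ⟨i, rfl⟩
      exact (S.equivFin.symm i).2
    · intro hx
      exact ⟨S.equivFin ⟨x, hx⟩, by simp⟩
  have hcl : Subgroup.closure (Set.range h) = H := by rw [hh, hS]
  have hmem : ∀ i, h i ∈ H := fun i => by
    rw [← hcl]
    exact Subgroup.subset_closure ⟨i, rfl⟩
  have hfox : ∀ i, ∃ W : Fin d → RR G, gof (t * h i * t⁻¹) - 1 = ∑ j, W j * (gof (h j) - 1) ∧
      ∀ j, Flat H (W j) := by
    intro i
    have := exists_fox h (x := t * h i * t⁻¹) (by rw [hcl]; exact htH _ (hmem i))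
    rwa [hcl] at this
  choose W hW1 hW2 using hfox
  let M0 : Matrix (Fin d) (Fin d) (OA G) := fun i j => iota 1 (W i j)
  let M1 : Matrix (Fin d) (Fin d) (OA G) := Matrix.diagonal (fun _ => lamA t⁻¹) * M0
  obtain ⟨s0, hs0⟩ := exists_inv_one_sub M1
  refine ⟨s0, fun c hc h1 h2 => ?_⟩
  obtain ⟨S', hS'⟩ := hs0 (c t) h1
  have hct : c t ≠ 0 := by linarith
  have hMW : (Matrix.of W).map (iota c) = M0 := by
    ext1 i j
    exact hW2 i j c hc
  have hgen' : Subgroup.closure (Set.range h ∪ {t}) = ⊤ := by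
    rw [← hgen, Subgroup.closure_union, Subgroup.closure_union, hcl, Subgroup.closure_eq]
  refine allInner_of h t hgen' (Matrix.of W) hW1 ?_
    (Matrix.diagonal (fun _ => iota c (gof t)) - (Matrix.of W).map (iota c))
    (S' * Matrix.diagonal (fun _ => (c t)⁻¹ • lamA t⁻¹)) rfl ?_
  · rw [iota_of]
    apply isUnit_smul_sub_one'
    rw [abs_of_pos (by linarith)]
    exact h2
  · rw [hMW, mul_assoc, mul_sub, Matrix.diagonal_mul_diagonal]
    have e1 : (Matrix.diagonal fun i : Fin d => (c t)⁻¹ • lamA t⁻¹ * (iota c) (gof t)) =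
        (1 : Matrix (Fin d) (Fin d) (OA G)) := by
      rw [iota_of]
      rw [smul_mul_smul_comm, inv_mul_cancel₀ hct, ← lamA_mul, inv_mul_cancel, lamA_one,
        one_smul]
      exact Matrix.diagonal_one
    have e2 : (Matrix.diagonal fun _ : Fin d => (c t)⁻¹ • lamA t⁻¹) * M0 = (c t)⁻¹ • M1 := by
      ext1 i j
      have hM1 : M1 i j = lamA t⁻¹ * M0 i j := Matrix.diagonal_mul _ _ _ _
      rw [Matrix.smul_apply, hM1, Matrix.diagonal_mul]
      exact smul_mul_assoc _ _ _
    rw [e1, e2]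
    exact hS'

end

end Pool.Agent.Helper386.PD3
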