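import Mathlib

/-!
Ascending HNN extensions.
-/

namespace Pool.Agent.Helper386.PD3

/-- The ascending HNN extension `H*_φ = ⟨H, t | t h t⁻¹ = φ(h)⟩`. -/
abbrev AscHNN (H : Type) [Group H] (φ : H →* H) (hφ : Function.Injective φ) : Type :=
  HNNExtension H ⊤ φ.range (Subgroup.topEquiv.trans (MonoidHom.ofInjective hφ))

section

variable {H : Type} [Group H] {φ : H →* H} {hφ : Function.Injective φ}

theorem asc_rel (h : H) : (HNNExtension.t : AscHNN H φ hφ) * HNNExtension.of h =
    HNNExtension.of (φ h) * HNNExtension.t := by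
  have := HNNExtension.t_mul_of (A := ⊤) (B := φ.range)
    (φ := Subgroup.topEquiv.trans (MonoidHom.ofInjective hφ)) (⟨h, trivial⟩ : (⊤ : Subgroup H))
  exact this

theorem asc_conj (h : H) : (HNNExtension.t : AscHNN H φ hφ) * HNNExtension.of h *
    HNNExtension.t⁻¹ = HNNExtension.of (φ h) := by
  rw [asc_rel, mul_inv_cancel_right]

theorem asc_pow (k : ℕ) (h : H) : (HNNExtension.t : AscHNN H φ hφ) ^ k * HNNExtension.of h =
    HNNExtension.of (φ^[k] h) * HNNExtension.t ^ k := by
  induction k generalizing h with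
  | zero => simp
  | succ k ih =>
    rw [pow_succ, mul_assoc, asc_rel, ← mul_assoc, ih, mul_assoc]
    rfl

/-- every element is of the form `t⁻ⁱ h tʲ` -/
theorem asc_nf (x : AscHNN H φ hφ) : ∃ (i j : ℕ) (h : H),
    x = (HNNExtension.t ^ i)⁻¹ * HNNExtension.of h * HNNExtension.t ^ j := by
  induction x using HNNExtension.induction_on with
  | of g => exact ⟨0, 0, g, by simp⟩
  | t => exact ⟨0, 1, 1, by simp⟩
  | mul x y ihx ihy =>
    obtain ⟨i, j, h, rfl⟩ := ihx
    obtain ⟨k, l, g, rfl⟩ := ihy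
    rcases le_total k j with hjk | hjk
    · obtain ⟨m, rfl⟩ := Nat.exists_eq_add_of_le hjk
      refine ⟨i, m + l, h * φ^[m] g, ?_⟩
      have e : (HNNExtension.t : AscHNN H φ hφ) ^ (k + m) =
          HNNExtension.t ^ m * HNNExtension.t ^ k := by rw [add_comm, pow_add]
      calc _ = (HNNExtension.t ^ i)⁻¹ * HNNExtension.of h * (HNNExtension.t ^ m *
            HNNExtension.of g) * HNNExtension.t ^ l := by rw [e]; group
        _ = _ := by rw [asc_pow, map_mul, pow_add]; simp only [mul_assoc]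
    · obtain ⟨m, rfl⟩ := Nat.exists_eq_add_of_le hjk
      refine ⟨m + i, l, φ^[m] h * g, ?_⟩
      have e : (HNNExtension.t : AscHNN H φ hφ) ^ (j + m) =
          HNNExtension.t ^ m * HNNExtension.t ^ j := by rw [add_comm, pow_add]
      have e2 : HNNExtension.of h * ((HNNExtension.t : AscHNN H φ hφ) ^ m)⁻¹ =
          (HNNExtension.t ^ m)⁻¹ * HNNExtension.of (φ^[m] h) := by
        rw [eq_inv_mul_iff_mul_eq, ← mul_assoc, asc_pow, mul_inv_cancel_right]
      calc _ = (HNNExtension.t ^ i)⁻¹ * (HNNExtension.of h * (HNNExtension.t ^ m)⁻¹) *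
            HNNExtension.of g * HNNExtension.t ^ l := by rw [e]; group
        _ = _ := by
          rw [e2, map_mul, pow_add, mul_inv_rev]
          simp only [mul_assoc]
  | inv x ih =>
    obtain ⟨i, j, h, rfl⟩ := ih
    refine ⟨j, i, h⁻¹, ?_⟩
    rw [map_inv]
    group

end

/-- A group with a subgroup pushed into itself by `t` is an ascending HNN extension. -/
theorem exists_asc {G : Type} [Group G] (χ : G →* Multiplicative ℤ) (t : G)
    (hχt : χ t = Multiplicative.ofAdd 1) (K : Subgroup G) (hK : ∀ x ∈ K, t * x * t⁻¹ ∈ K)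
    (hKχ : ∀ x ∈ K, χ x = 1) (hun : ∀ g, χ g = 1 → ∃ k : ℕ, t ^ k * g * (t ^ k)⁻¹ ∈ K)
    (hp : ∃ x ∈ K, t⁻¹ * x * t ∉ K) :
    ∃ (φ : K →* K) (hφ : Function.Injective φ), ¬ Function.Surjective φ ∧
      Nonempty (G ≃* AscHNN K φ hφ) := by
  let φ : K →* K :=
    { toFun := fun x => ⟨t * x * t⁻¹, hK x x.2⟩
      map_one' := by
        apply Subtype.ext
        change t * 1 * t⁻¹ = 1
        group
      map_mul' := fun x y => by
        apply Subtype.ext
        change t * (x * y : G) * t⁻¹ = (t * x * t⁻¹) * (t * y * t⁻¹)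
        group }
  have hφv : ∀ x : K, ((φ x : K) : G) = t * x * t⁻¹ := fun x => rfl
  have hφ : Function.Injective φ := by
    intro x y h
    apply Subtype.ext
    have := congrArg Subtype.val h
    rw [hφv, hφv] at this
    exact mul_left_cancel (mul_right_cancel this)
  refine ⟨φ, hφ, ?_, ?_⟩
  · intro hs
    obtain ⟨x, hx, hxt⟩ := hp
    obtain ⟨y, hy⟩ := hs ⟨x, hx⟩
    apply hxt
    have h1 : t * (y : G) * t⁻¹ = x := congrArg Subtype.val hy
    have h2 : t⁻¹ * x * t = y := by
      rw [← h1]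
      group
    rw [h2]
    exact y.2
  · let F : AscHNN K φ hφ →* G := HNNExtension.lift K.subtype t (by
      rintro ⟨a, -⟩
      change t * (a : G) = (t * a * t⁻¹) * t
      group)
    have hFt : F HNNExtension.t = t := HNNExtension.lift_t _ _ _
    have hFo : ∀ x : K, F (HNNExtension.of x) = x := fun x => HNNExtension.lift_of _ _ _ x
    have hinj : Function.Injective F := by
      rw [injective_iff_map_eq_one]
      intro y hy
      obtain ⟨i, j, x, rfl⟩ := asc_nf y
      rw [map_mul, map_mul, map_inv, map_pow, map_pow, hFt, hFo] at hy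
      have h1 : χ ((t ^ i)⁻¹ * x * t ^ j) = 1 := by rw [hy]; exact map_one χ
      rw [map_mul, map_mul, map_inv, map_pow, map_pow, hKχ x x.2, hχt, mul_one,
        inv_mul_eq_one, ← ofAdd_nsmul, ← ofAdd_nsmul] at h1
      have h2 : i = j := by
        have := Multiplicative.ofAdd.injective h1
        simpa using this
      subst h2
      have h3 : (x : G) = 1 := by
        have h4 : (x : G) = t ^ i * ((t ^ i)⁻¹ * x * t ^ i) * (t ^ i)⁻¹ := by group
        rw [h4, hy]
        group
      have h5 : x = 1 := Subtype.ext h3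
      rw [h5, map_one]
      group
    have hsurj : Function.Surjective F := by
      intro g
      obtain ⟨k, hk⟩ := hun (g * (t ^ (Multiplicative.toAdd (χ g)))⁻¹) (by
        rw [map_mul, map_inv, map_zpow, hχt, ← ofAdd_zsmul]
        simp)
      refine ⟨(HNNExtension.t ^ k)⁻¹ * HNNExtension.of ⟨_, hk⟩ * HNNExtension.t ^ k *
        HNNExtension.t ^ (Multiplicative.toAdd (χ g)), ?_⟩
      rw [map_mul, map_mul, map_mul, map_inv, map_pow, map_zpow, hFt, hFo]
      change (t ^ k)⁻¹ * (t ^ k * (g * (t ^ (Multiplicative.toAdd (χ g)))⁻¹) * (t ^ k)⁻¹) * t ^ k *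
        t ^ (Multiplicative.toAdd (χ g)) = g
      group
    exact ⟨(MulEquiv.ofBijective F ⟨hinj, hsurj⟩).symm⟩

end Pool.Agent.Helper386.PD3
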