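import Pool.Agent.Helper386.PD3.Core

/-!
The final contradiction.
-/

namespace Pool.Agent.Helper386.PD3

set_option linter.unusedSectionVars false

open scoped Classical Matrix ENNReal

noncomputable section

variable {G : Type} [Group G]

/-- basis vectors of `ℓ¹` -/
def dl1 (g : G) : L1 G := lp.single 1 g 1

theorem dl1_apply (g k : G) : dl1 g k = if k = g then 1 else 0 := by
  change (Pi.single g (1 : ℝ) : G → ℝ) k = _
  rw [Pi.single_apply]

theorem norm_dl1 (g : G) : ‖dl1 g‖ = 1 := by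
  rw [dl1, lp.norm_single (by norm_num)]
  norm_num

theorem lam1_dl1 (g k : G) : lam1 g (dl1 k) = dl1 (g * k) := by
  ext x
  rw [lam1_apply, dl1_apply, dl1_apply]
  by_cases h : x = g * k
  · subst h
    simp
  · rw [if_neg h, if_neg]
    intro h'
    apply h
    rw [← h']
    group

theorem summable_abs (x : L1 G) : Summable fun y => |x y| := by
  have := (memℓp_gen_iff one_pos').1 x.2
  simpa using this

theorem norm_L1 (x : L1 G) : ‖x‖ = ∑' y, |x y| := by
  rw [lp.norm_eq_tsum_rpow one_pos']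
  simp

/-- a bounded function as a functional -/
theorem exists_functional (F : G → ℝ) (C : ℝ) (hC : ∀ y, |F y| ≤ C) :
    ∃ ν : L1 G →L[ℝ] ℝ, ∀ y, ν (dl1 y) = F y := by
  have hs : ∀ x : L1 G, Summable fun y => |F y * x y| := by
    intro x
    refine Summable.of_nonneg_of_le (fun y => abs_nonneg _) (fun y => ?_)
      ((summable_abs x).mul_left C)
    rw [abs_mul]
    exact mul_le_mul_of_nonneg_right (hC y) (abs_nonneg _)
  let L : L1 G →ₗ[ℝ] ℝ :=
    { toFun := fun x => ∑' y, F y * x y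
      map_add' := fun x x' => by
        rw [← ((hs x).of_abs).tsum_add (hs x').of_abs]
        refine tsum_congr fun y => ?_
        exact mul_add _ _ _
      map_smul' := fun r x => by
        rw [RingHom.id_apply, smul_eq_mul, ← tsum_mul_left]
        refine tsum_congr fun y => ?_
        change F y * (r * x y) = _
        ring }
  refine ⟨L.mkContinuous C (fun x => ?_), fun y => ?_⟩
  · change |∑' y, F y * x y| ≤ C * ‖x‖
    rw [norm_L1, ← tsum_mul_left]
    have h1 := norm_tsum_le_tsum_norm (f := fun y => F y * x y) (by simpa using hs x)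
    refine h1.trans ?_
    refine Summable.tsum_le_tsum (fun y => ?_) (by simpa using hs x)
      ((summable_abs x).mul_left C)
    rw [Real.norm_eq_abs, abs_mul]
    exact mul_le_mul_of_nonneg_right (hC y) (abs_nonneg _)
  · change ∑' z, F z * dl1 y z = F y
    rw [tsum_eq_single y]
    · rw [dl1_apply, if_pos rfl, mul_one]
    · intro z hz
      rw [dl1_apply, if_neg hz, mul_zero]

variable (G) in
/-- the dual of `ℓ¹` -/
def NN : Type := L1 G →L[ℝ] ℝ

instance : AddCommGroup (NN G) := inferInstanceAs (AddCommGroup (L1 G →L[ℝ] ℝ))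

/-- evaluation -/
def NN.ev (ν : NN G) (x : L1 G) : ℝ := (show L1 G →L[ℝ] ℝ from ν) x

instance : Module (OA G)ᵐᵒᵖ (NN G) where
  smul T ν := (show L1 G →L[ℝ] ℝ from ν) ∘L T.unop.1.1
  one_smul ν := by
    change (show L1 G →L[ℝ] ℝ from ν) ∘L (ContinuousLinearMap.id ℝ (L1 G)) = ν
    rfl
  mul_smul S T ν := rfl
  smul_zero T := rfl
  smul_add T ν ν' := rfl
  add_smul S T ν := by
    change (show L1 G →L[ℝ] ℝ from ν) ∘L (S.unop.1.1 + T.unop.1.1) = _
    rw [ContinuousLinearMap.comp_add]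
    rfl
  zero_smul ν := by
    change (show L1 G →L[ℝ] ℝ from ν) ∘L (0 : L1 G →L[ℝ] L1 G) = 0
    rw [ContinuousLinearMap.comp_zero]

theorem NN.ev_smul (T : (OA G)ᵐᵒᵖ) (ν : NN G) (x : L1 G) :
    (T • ν).ev x = ν.ev (T.unop.1.1 x) := rfl

theorem NN.ev_add (ν ν' : NN G) (x : L1 G) : (ν + ν').ev x = ν.ev x + ν'.ev x := rfl
theorem NN.ev_sub (ν ν' : NN G) (x : L1 G) : (ν - ν').ev x = ν.ev x - ν'.ev x := rfl
theorem NN.ev_neg (ν : NN G) (x : L1 G) : (-ν).ev x = -ν.ev x := rfl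

theorem NN.ext {ν ν' : NN G} (h : ∀ y, ν.ev (dl1 y) = ν'.ev (dl1 y)) : ν = ν' := by
  refine lp.ext_continuousLinearMap (𝕜 := ℝ) (E := fun _ : G => ℝ) (p := 1) (by norm_num)
    (fun y => ?_)
  ext
  exact h y

/-- the twisted homomorphism to the opposite algebra -/
def jj (w : G →* ℤˣ) (c : G →* ℝ) : RR G →+* (OA G)ᵐᵒᵖ :=
  (RingHom.op (iota c)).comp (dagHom w)

theorem jj_apply (w : G →* ℤˣ) (c : G →* ℝ) (x : RR G) :
    jj w c x = MulOpposite.op (iota c (dg w x)) := rfl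

theorem ev_jj (w : G →* ℤˣ) (c : G →* ℝ) (g y : G) (ν : NN G) :
    (jj w c (gof g) • ν).ev (dl1 y) = ((((w g : ℤˣ) : ℤ) : ℝ) * (c g)⁻¹) * ν.ev (dl1 (g⁻¹ * y)) := by
  rw [NN.ev_smul, jj_apply, MulOpposite.unop_op]
  have e : iota c (dg w (gof g)) = ((((w g : ℤˣ) : ℤ) : ℝ) * c g⁻¹) • lamA g⁻¹ := by
    rw [dg_of, map_zsmul, iota_of, ← Int.cast_smul_eq_zsmul ℝ]
    exact smul_smul _ _ _
  rw [e]
  change ν.ev (((((w g : ℤˣ) : ℤ) : ℝ) * c g⁻¹) • lam1 g⁻¹ (dl1 y)) = _
  rw [lam1_dl1, c_inv]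
  exact map_smul (show L1 G →L[ℝ] ℝ from ν) _ _

theorem allInner_jj {n : ℕ} {w : G →* ℤˣ} {e0 e1 e2 e3 d0 d1 d2 : MR G n}
    (h : Full w e0 e1 e2 e3 d0 d1 d2) (c : G →* ℝ) (hin : AllInner (iota c)) (t : G)
    (ht : 1 < c t) : AllInner (jj w c) := by
  obtain ⟨X1, X2, hX⟩ := h.contr c hin t ht
  refine allInner_of_contr (jj w c) h.low (Matrix.of fun i k => MulOpposite.op (X1 k i))
    (Matrix.of fun i k => MulOpposite.op (X2 k i)) ?_
  ext1 i k
  have h1 := congrFun (congrFun hX k) i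
  apply MulOpposite.unop_injective
  change (dgM w e1).map (iota c) k i =
    MulOpposite.unop (∑ l, MulOpposite.op (X1 l i) * jj w c (d1 l k) +
      ∑ l, jj w c (d0 i l) * MulOpposite.op (X2 k l))
  rw [MulOpposite.unop_add, Finset.unop_sum, Finset.unop_sum]
  exact h1

end

end Pool.Agent.Helper386.PD3
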