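import Pool.Agent.Helper386.PD3.Data
import Pool.Agent.Helper386.PD3.Hnn

/-!
Finitely generated bases.
-/

namespace Pool.Agent.Helper386.PD3

open Pool.Agent.Helper158

theorem fg_base {G : Type} [Group G] {P : ℕ → Type} [∀ i, AddCommGroup (P i)]
    [∀ i, Module (MonoidAlgebra ℤ G) (P i)] {d : ∀ i, P (i + 1) →ₗ[MonoidAlgebra ℤ G] P i}
    {ε : P 0 →+ ℤ} (hR : Reso P d ε) (m : ℕ) (hm : ∀ i, m < i → Subsingleton (P i))
    [∀ i, Module.Finite (MonoidAlgebra ℤ G) (P i)]
    [∀ i, Module.Projective (MonoidAlgebra ℤ G) (P i)]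
    (hcoh : ∀ i, i ≠ 3 → Subsingleton (groupCohomology (Rep.leftRegular ℤ G) i))
    (htop : Nonempty (groupCohomology (Rep.leftRegular ℤ G) 3 ≃+ ℤ))
    {H : Type} [Group H] [Group.FG H] {φ : H →* H} {hφ : Function.Injective φ}
    (e : G ≃* AscHNN H φ hφ) : Function.Surjective φ := by
  obtain ⟨w, n, e0, e1, e2, e3, d0, d1, d2, hF⟩ := exists_full hR m hm hcoh htop
  let ι : H →* G := e.symm.toMonoidHom.comp HNNExtension.of
  let t : G := e.symm HNNExtension.t
  have hι : ∀ h, ι h = e.symm (HNNExtension.of h) := fun h => rfl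
  have hιinj : Function.Injective ι :=
    e.symm.injective.comp (HNNExtension.of_injective _)
  have hconj : ∀ h, t * ι h * t⁻¹ = ι (φ h) := by
    intro h
    rw [hι, hι, ← asc_conj, map_mul, map_mul, map_inv]
  let χ0 : AscHNN H φ hφ →* Multiplicative ℤ :=
    HNNExtension.lift 1 (Multiplicative.ofAdd 1) (by
      intro a
      simp)
  let χ : G →* Multiplicative ℤ := χ0.comp e.toMonoidHom
  have hχι : ∀ h, χ (ι h) = 1 := by
    intro h
    change χ0 (e (e.symm (HNNExtension.of h))) = 1
    rw [MulEquiv.apply_symm_apply]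
    exact HNNExtension.lift_of _ _ _ h
  have hχt : χ t = Multiplicative.ofAdd 1 := by
    change χ0 (e (e.symm HNNExtension.t)) = _
    rw [MulEquiv.apply_symm_apply]
    exact HNNExtension.lift_t _ _ _
  have hfg : ι.range.FG := (Group.fg_iff_subgroup_fg _).1 (Group.fg_range ι)
  have hgen : Subgroup.closure ((ι.range : Set G) ∪ {t}) = ⊤ := by
    rw [eq_top_iff]
    intro g _
    have h1 : ∀ x : AscHNN H φ hφ, e.symm x ∈ Subgroup.closure ((ι.range : Set G) ∪ {t}) := by
      intro x
      induction x using HNNExtension.induction_on with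
      | of h => exact Subgroup.subset_closure (Or.inl ⟨h, rfl⟩)
      | t => exact Subgroup.subset_closure (Or.inr rfl)
      | mul x y hx hy =>
        rw [map_mul]
        exact mul_mem hx hy
      | inv x hx =>
        rw [map_inv]
        exact inv_mem hx
    have := h1 (e g)
    rwa [MulEquiv.symm_apply_apply] at this
  have key := core hF ι.range hfg t hgen
    (by
      rintro _ ⟨h, rfl⟩
      rw [hconj]
      exact ⟨φ h, rfl⟩) χ
    (by
      rintro _ ⟨h, rfl⟩
      exact hχι h) hχt
  intro h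
  obtain ⟨h', hh'⟩ := key (ι h) ⟨h, rfl⟩
  refine ⟨h', ?_⟩
  apply hιinj
  rw [← hconj, hh']
  group

end Pool.Agent.Helper386.PD3
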